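import Pool.Agent.H46.SR.Final

/-! The alternating scheme, for `d ≥ 3`. -/

namespace Pool.Agent.H46.SR

open Finset Pool.Agent.H68 Filter Topology

namespace Alt

/-- `C_(f - i)` -/
def Bn (d f m : ℕ) : ℕ → ℕ
  | 0 => m / d
  | i + 1 => m / (f - i) - Bn d f m i

/-- `C_j`, `1 ≤ j ≤ f` -/
def C (d f m j : ℕ) : ℕ := Bn d f m (f - j)

structure Hyp (d f m : ℕ) : Prop where
  hf : 1 ≤ f
  hd : 2 * f + 1 ≤ d
  hd' : d ≤ 2 * f + 2
  hm : 1 ≤ m
  hdm : d ∣ m
  hfm : ∀ j, 1 ≤ j → j ≤ f → j ∣ m

variable {d f m : ℕ}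

theorem C_f (H : Hyp d f m) : C d f m f * d = m := by
  unfold C
  rw [Nat.sub_self]
  exact Nat.div_mul_cancel H.hdm

theorem C_rec (j : ℕ) (hj : j + 1 ≤ f) :
    C d f m j = m / (j + 1) - C d f m (j + 1) := by
  unfold C
  have h1 : f - j = (f - (j + 1)) + 1 := by omega
  rw [h1]
  show m / (f - (f - (j + 1))) - Bn d f m (f - (j + 1)) = _
  have h2 : f - (f - (j + 1)) = j + 1 := by omega
  rw [h2]

/-- the main bounds, by downward induction -/
theorem bounds (H : Hyp d f m) : ∀ i, i + 1 ≤ f →
    2 * (f - i) * C d f m (f - i) < m ∧ m ≤ 2 * ((f - i) + 1) * C d f m (f - i) := by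
  have hm := H.hm
  intro i
  induction i with
  | zero =>
    intro _
    have h1 := C_f H
    have h2 := H.hd
    have h3 := H.hd'
    rw [Nat.sub_zero]
    generalize C d f m f = c at *
    have hc : 0 < c := by
      rcases Nat.eq_zero_or_pos c with h | h
      · subst h; omega
      · exact h
    constructor
    · rw [← h1, mul_comm c d]
      exact Nat.mul_lt_mul_of_pos_right (by omega) hc
    · rw [← h1, mul_comm c d]
      exact Nat.mul_le_mul_right _ (by omega)
  | succ i ih =>
    intro hi
    obtain ⟨h1, h2⟩ := ih (by omega)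
    have e1 : f - i = (f - (i + 1)) + 1 := by omega
    have hrec := C_rec (d := d) (f := f) (m := m) (f - (i + 1)) (by omega)
    rw [← e1] at hrec
    have hdvd := H.hfm (f - i) (by omega) (by omega)
    obtain ⟨x, hx⟩ := hdvd
    have hpos : 0 < f - i := by omega
    have hx2 : m / (f - i) = x := by
      rw [hx]
      exact Nat.mul_div_cancel_left x hpos
    rw [hx2] at hrec
    generalize hj : f - (i + 1) = j at *
    rw [e1] at h1 h2 hx hrec
    have hj1 : 1 ≤ j := by omega
    generalize C d f m (j + 1) = y at *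
    rw [hrec]
    have hyx : y ≤ x := by
      by_contra hcon
      push Not at hcon
      have : (j + 1) * x ≤ (j + 1) * y := Nat.mul_le_mul_left _ hcon.le
      nlinarith
    obtain ⟨c, rfl⟩ : ∃ c, x = y + c := ⟨x - y, by omega⟩
    rw [Nat.add_sub_cancel_left]
    constructor
    · -- 2 j c < (j+1)(y+c) where m ≤ 2 (j+2) y
      rw [hx] at h2 ⊢
      by_contra hcon
      push Not at hcon
      -- (j+1)(y+c) ≤ 2 j c  and (j+1)(y+c) ≤ 2(j+2) y
      have h3 : (j + 1) * (y + c) * (j + 2) ≤ 2 * j * c * (j + 2) := Nat.mul_le_mul_right _ hcon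
      have h4 : (j + 1) * (y + c) * j ≤ 2 * (j + 1 + 1) * y * j := Nat.mul_le_mul_right _ h2
      have h5 : (j + 1) * (y + c) * (j + 2) + (j + 1) * (y + c) * j ≤
        2 * j * (j + 2) * (y + c) := by nlinarith
      have h6 : (j + 1) * (y + c) * (j + 2) + (j + 1) * (y + c) * j =
        2 * j * (j + 2) * (y + c) + 2 * (y + c) := by ring
      have h7 : 0 < y + c := by
        rcases Nat.eq_zero_or_pos (y + c) with h | h
        · rw [h] at hx; omega
        · exact h
      omega
    · rw [hx] at h1 ⊢
      nlinarith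

theorem b1 (H : Hyp d f m) {j : ℕ} (hj1 : 1 ≤ j) (hj : j ≤ f) :
    2 * j * C d f m j < m ∧ m ≤ 2 * (j + 1) * C d f m j := by
  have h := bounds H (f - j) (by omega)
  have e1 : f - (f - j) = j := by omega
  rw [e1] at h
  exact h

theorem C_pos (H : Hyp d f m) {j : ℕ} (hj1 : 1 ≤ j) (hj : j ≤ f) : 1 ≤ C d f m j := by
  have h := (b1 H hj1 hj).2
  have hm := H.hm
  rcases Nat.eq_zero_or_pos (C d f m j) with h0 | h0
  · rw [h0] at h; omega
  · exact h0

theorem C_add (H : Hyp d f m) {j : ℕ} (hj1 : 1 ≤ j) (hj : j + 1 ≤ f) :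
    (j + 1) * (C d f m j + C d f m (j + 1)) = m := by
  have hrec := C_rec (d := d) (f := f) (m := m) j hj
  obtain ⟨x, hx⟩ := H.hfm (j + 1) (by omega) hj
  have hx2 : m / (j + 1) = x := by
    rw [hx]
    exact Nat.mul_div_cancel_left x (by omega)
  rw [hx2] at hrec
  have h1 := (b1 H (j := j + 1) (by omega) hj).1
  have hpos := C_pos H hj1 (by omega : j ≤ f)
  have : C d f m j + C d f m (j + 1) = x := by omega
  rw [this]
  exact hx.symm

theorem C_anti (H : Hyp d f m) {j : ℕ} (hj1 : 1 ≤ j) (hj : j + 1 ≤ f) :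
    C d f m (j + 1) ≤ C d f m j := by
  have h1 := C_add H hj1 hj
  have h2 := (b1 H (j := j + 1) (by omega) hj).1
  have h3 : (j + 1) * (2 * C d f m (j + 1)) < (j + 1) * (C d f m j + C d f m (j + 1)) := by
    rw [h1]
    calc (j + 1) * (2 * C d f m (j + 1)) = 2 * (j + 1) * C d f m (j + 1) := by ring
      _ < m := h2
  have h4 := Nat.lt_of_mul_lt_mul_left h3
  omega

theorem C_one (H : Hyp d f m) : 3 * C d f m 1 ≤ m := by
  have hf := H.hf
  rcases Nat.lt_or_ge f 2 with h | h
  · have hf1 : f = 1 := by omega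
    have h1 := C_f H
    have h2 := H.hd
    rw [hf1] at h1 h2 ⊢
    calc 3 * C d 1 m 1 = C d 1 m 1 * 3 := mul_comm _ _
      _ ≤ C d 1 m 1 * d := Nat.mul_le_mul_left _ (by omega)
      _ = m := h1
  · have h1 := C_add H (j := 1) le_rfl h
    have h2 := (b1 H (j := 2) (by omega) h).2
    norm_num at h1 h2
    omega

theorem rec_ge (x g b m' : ℕ) (hb : g ≤ b) (hm : m' ≤ b) (hx : 1 ≤ x) :
    x * (b - g) + 1 ≤ m' * x + (if g ≤ b - m' then x * (b - m' - g) + 1 else 0) := by
  split_ifs with h
  · obtain ⟨c, rfl⟩ : ∃ c, b = g + c := ⟨b - g, by omega⟩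
    obtain ⟨c', hc'⟩ : ∃ c', c = m' + c' := ⟨c - m', by omega⟩
    subst hc'
    have e1 : g + (m' + c') - g = m' + c' := by omega
    have e2 : g + (m' + c') - m' - g = c' := by omega
    rw [e1, e2]
    apply le_of_eq
    ring
  · obtain ⟨c, rfl⟩ : ∃ c, b = g + c := ⟨b - g, by omega⟩
    have e1 : g + c - g = c := by omega
    rw [e1, add_zero]
    have h2 : c + 1 ≤ m' := by omega
    calc x * c + 1 ≤ x * c + x := by omega
      _ = (c + 1) * x := by ring
      _ ≤ m' * x := Nat.mul_le_mul_right _ h2

def e (d f : ℕ) (j : ℕ) : ℕ := if j = 0 then 1 else if j ≤ f then j else d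
def A (d f m : ℕ) (j : ℕ) : ℕ :=
  if j = 0 then m - C d f m 1 else if j ≤ f then 2 * C d f m j else 0
def θ (d f m : ℕ) (j b : ℕ) : ℕ :=
  if j = 0 then (m - C d f m 1) * b
  else if j ≤ f then (if j ≤ b then (2 * C d f m j) * (b - j) + 1 else 0)
  else if d ≤ b then 1 else 0

theorem eA0 : e d f 0 * A d f m 0 = m - C d f m 1 := by
  unfold e A
  simp

theorem eA1 {j : ℕ} (hj1 : 1 ≤ j) (hj : j ≤ f) : e d f j * A d f m j = 2 * j * C d f m j := by
  unfold e A
  rw [if_neg (by omega), if_pos hj, if_neg (by omega), if_pos hj]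
  ring

theorem eA2 {j : ℕ} (hj : f < j) : e d f j * A d f m j = 0 := by
  unfold A
  rw [if_neg (by omega), if_neg (by omega), mul_zero]

/-- the alternating scheme -/
def scheme (H : Hyp d f m) : Scheme d (f + 2) m where
  e := e d f
  A := A d f m
  θ := θ d f m
  hd := by have := H.hd; omega
  hJ := by omega
  he := by
    intro j
    have h1 := H.hf
    have h2 := H.hd
    unfold e
    split_ifs <;> omega
  ha := by
    intro j
    have hm := H.hm
    rcases Nat.eq_zero_or_pos j with h | h
    · subst h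
      rw [eA0]
      have h1 := C_pos H (j := 1) le_rfl H.hf
      omega
    · by_cases hj : j ≤ f
      · rw [eA1 h hj]
        exact (b1 H h hj).1
      · rw [eA2 (by omega)]
        omega
  hA := by unfold A; rw [if_neg (by omega), if_neg (by omega)]
  hA' := by unfold A; rw [if_neg (by omega), if_neg (by omega)]
  hθ0 := by unfold θ; simp
  hθs := by
    intro j hj b hb
    have hm := H.hm
    have hf := H.hf
    have hd := H.hd
    rcases Nat.eq_zero_or_pos j with h0 | h0
    · -- first transition
      subst h0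
      rw [zero_add, eA0, eA1 le_rfl hf]
      have h3 := C_one H
      have h4 := C_pos H (j := 1) le_rfl hf
      unfold θ A
      simp only [if_true, one_ne_zero, if_false]
      rw [if_pos hf]
      by_cases hb1 : 1 ≤ b
      · right
        intro m' hm'
        rw [if_pos hb1]
        generalize C d f m 1 = c at *
        obtain ⟨y, hy⟩ : ∃ y, m = c + y := ⟨m - c, by omega⟩
        obtain ⟨b', rfl⟩ : ∃ b', b = b' + 1 := ⟨b - 1, by omega⟩
        have e1 : m - c = y := by omega
        rw [e1, Nat.add_sub_cancel]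
        have e2 : m' * y + y * (b' + 1 - m') = y * (b' + 1) := by
          rw [mul_comm m' y, ← Nat.mul_add]
          congr 1
          omega
        rw [e2]
        have h5 : 2 * c ≤ y := by omega
        have h6 : 2 * c * b' ≤ y * b' := Nat.mul_le_mul_right _ h5
        rw [Nat.mul_add, mul_one]
        omega
      · left
        rw [if_neg hb1]
    · by_cases hjf : j < f
      · rw [eA1 h0 (by omega), eA1 (j := j + 1) (by omega) (by omega)]
        have h1 := C_add H (j := j) h0 (by omega)
        have h2 := C_anti H (j := j) h0 (by omega)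
        have h3 := C_pos H (j := j) h0 (by omega)
        have hθ : θ d f m (j + 1) b = if j + 1 ≤ b then (2 * C d f m (j + 1)) * (b - (j + 1)) + 1
            else 0 := by
          unfold θ
          rw [if_neg (by omega), if_pos (by omega)]
        rw [hθ]
        by_cases hb1 : j + 1 ≤ b
        · right
          intro m' hm'
          rw [if_pos hb1]
          have hAj : A d f m j = 2 * C d f m j := by
            unfold A
            rw [if_neg (by omega), if_pos (by omega)]
          have hθj : θ d f m j (b - m') = if j ≤ b - m' then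
              (2 * C d f m j) * (b - m' - j) + 1 else 0 := by
            unfold θ
            rw [if_neg (by omega), if_pos (by omega)]
          rw [hAj, hθj]
          refine le_trans ?_ (rec_ge (2 * C d f m j) j b m' (by omega) hm' (by omega))
          generalize C d f m (j + 1) = y at *
          generalize C d f m j = x at *
          obtain ⟨b', rfl⟩ : ∃ b', b = j + 1 + b' := ⟨b - (j + 1), by omega⟩
          have e1 : j + 1 + b' - (j + 1) = b' := by omega
          have e2 : j + 1 + b' - j = b' + 1 := by omega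
          rw [e1, e2, ← h1]
          have e3 : 2 * ((j + 1) * (x + y)) = 2 * j * x + 2 * (j + 1) * y + 2 * x := by ring
          have h4 : 2 * y * b' ≤ 2 * x * b' := Nat.mul_le_mul_right _ (by omega)
          have e4 : 2 * x * (b' + 1) = 2 * x * b' + 2 * x := by ring
          rw [e3, e4]
          omega
        · left
          rw [if_neg hb1]
      · -- last transition
        have hjf' : j = f := by omega
        subst hjf'
        rw [eA1 h0 le_rfl, eA2 (by omega)]
        have h1 := C_f H
        have h3 := C_pos H (j := j) h0 le_rfl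
        have hθ : θ d j m (j + 1) b = if d ≤ b then 1 else 0 := by
          unfold θ
          rw [if_neg (by omega), if_neg (by omega)]
        rw [hθ]
        by_cases hb1 : d ≤ b
        · right
          intro m' hm'
          rw [if_pos hb1]
          have hbd : b = d := by omega
          subst hbd
          have hAj : A b j m j = 2 * C b j m j := by
            unfold A
            rw [if_neg (by omega), if_pos (by omega)]
          have hθj : θ b j m j (b - m') = if j ≤ b - m' then
              (2 * C b j m j) * (b - m' - j) + 1 else 0 := by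
            unfold θ
            rw [if_neg (by omega), if_pos (by omega)]
          rw [hAj, hθj]
          refine le_trans ?_ (rec_ge (2 * C b j m j) j b m' (by omega) hm' (by omega))
          generalize C b j m j = x at *
          obtain ⟨b', hb'⟩ : ∃ b', b = j + b' := ⟨b - j, by omega⟩
          have e1 : b - j = b' := by omega
          rw [e1, ← h1]
          have e3 : 2 * (x * b) = 2 * j * x + 2 * x * b' := by rw [hb']; ring
          rw [e3]
          omega
        · left
          rw [if_neg hb1]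
  hθe := by
    intro j hj
    have hm := H.hm
    by_cases h0 : j = 0
    · subst h0
      unfold θ e
      simp only [if_true, mul_one]
      have h1 := C_pos H (j := 1) le_rfl H.hf
      have h2 := C_one H
      omega
    · by_cases h1 : j ≤ f
      · unfold θ e
        rw [if_neg h0, if_pos h1, if_neg h0, if_pos h1, if_pos le_rfl]
        omega
      · unfold θ e
        rw [if_neg h0, if_neg h1, if_neg h0, if_neg h1, if_pos le_rfl]

theorem scheme_E (H : Hyp d f m) : (scheme H).E + (f + 3) + 2 * (f * C d f m f) =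
    6 * m + 2 * ∑ j ∈ range (f - 1), C d f m (j + 1) := by
  unfold Scheme.E Scheme.R Scheme.a
  have hsE : (scheme H).e = e d f := rfl
  have hsA : (scheme H).A = A d f m := rfl
  rw [hsE, hsA]
  have hf := H.hf
  have hm := H.hm
  obtain ⟨c, hc⟩ : ∃ c, f = c + 1 := ⟨f - 1, by omega⟩
  subst hc
  have h1 := C_one H
  have h2 := C_pos H (j := 1) le_rfl hf
  rw [eA0, Finset.sum_range_succ, Finset.sum_range_succ, Finset.sum_range_succ', eA0,
    eA1 (j := c + 1) (by omega) le_rfl, eA2 (j := c + 1 + 1) (by omega),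
    eA2 (j := c + 1 + 1 + 1) (by omega), zero_add, eA1 (j := 1) le_rfl hf]
  have hsum : ∑ j ∈ range c, (2 * m - 1 - e d (c + 1) (j + 1) * A d (c + 1) m (j + 1) -
      e d (c + 1) (j + 1 + 1) * A d (c + 1) m (j + 1 + 1)) + c =
      2 * ∑ j ∈ range c, C d (c + 1) m (j + 1) := by
    rw [Finset.mul_sum]
    have h3 : ∀ j ∈ range c, (2 * m - 1 - e d (c + 1) (j + 1) * A d (c + 1) m (j + 1) -
      e d (c + 1) (j + 1 + 1) * A d (c + 1) m (j + 1 + 1)) + 1 = 2 * C d (c + 1) m (j + 1) := by
      intro j hj
      rw [mem_range] at hj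
      rw [eA1 (j := j + 1) (by omega) (by omega), eA1 (j := j + 1 + 1) (by omega) (by omega)]
      have h4 := C_add H (j := j + 1) (by omega) (by omega)
      have h5 := C_pos H (j := j + 1) (by omega) (by omega)
      generalize C d (c + 1) m (j + 1) = x at *
      generalize C d (c + 1) m (j + 1 + 1) = y at *
      have h6 : 2 * m = 2 * (j + 1) * x + 2 * (j + 1 + 1) * y + 2 * x := by
        rw [← h4]; ring
      omega
    rw [← Finset.sum_congr rfl h3, Finset.sum_add_distrib]
    simp
  have h5 := (b1 H (j := c + 1) (by omega) le_rfl).1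
  have e0 : c + 1 - 1 = c := by omega
  rw [e0]
  have h6 : 2 * (c + 1) * C d (c + 1) m (c + 1) = 2 * ((c + 1) * C d (c + 1) m (c + 1)) := by ring
  rw [h6] at h5 ⊢
  omega

theorem sum_even (H : Hyp d f m) : ∀ g, 2 * g ≤ f →
    ∑ j ∈ range (2 * g), (C d f m (j + 1) : ℝ) = m * (((harmonic g : ℚ) : ℝ) / 2) := by
  intro g
  induction g with
  | zero =>
    intro _
    simp
  | succ g ih =>
    intro hg
    have h1 := ih (by omega)
    have h2 : 2 * (g + 1) = 2 * g + 1 + 1 := by ring
    rw [h2, Finset.sum_range_succ, Finset.sum_range_succ, h1, harmonic_succ]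
    have h3 := C_add H (j := 2 * g + 1) (by omega) (by omega)
    have h4 : ((2 * g + 1 + 1 : ℕ) : ℝ) * ((C d f m (2 * g + 1) : ℝ) + C d f m (2 * g + 1 + 1)) = m := by
      exact_mod_cast h3
    have h5 : (C d f m (2 * g + 1) : ℝ) + C d f m (2 * g + 1 + 1) = m / (2 * ((g : ℝ) + 1)) := by
      rw [eq_div_iff (by positivity), ← h4]
      push_cast
      ring
    push_cast
    rw [add_assoc, h5]
    have : (g : ℝ) + 1 ≠ 0 := by positivity
    field_simp

/-- the sum in the exponent -/
theorem sum_eq (H : Hyp d f m) : ∑ j ∈ range (f - 1), (C d f m (j + 1) : ℝ) - f * C d f m f =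
    m * (((harmonic (f / 2) : ℚ) : ℝ) / 2 - (2 * ((f / 2 : ℕ) : ℝ) + 1) / d) := by
  have hf := H.hf
  have hd := H.hd
  have hd0 : (0 : ℝ) < d := by
    have : 0 < d := by omega
    exact_mod_cast this
  have hCf : (C d f m f : ℝ) = m / d := by
    rw [eq_div_iff hd0.ne']
    exact_mod_cast C_f H
  rcases Nat.even_or_odd' f with ⟨g, hg | hg⟩
  · have h1 : f / 2 = g := by omega
    have h2 := sum_even H g (by omega)
    rw [h1]
    have h3 : 2 * g = (f - 1) + 1 := by omega
    rw [h3, Finset.sum_range_succ] at h2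
    have h4 : f - 1 + 1 = f := by omega
    rw [h4] at h2
    have h5 : ∑ j ∈ range (f - 1), (C d f m (j + 1) : ℝ) =
        m * (((harmonic g : ℚ) : ℝ) / 2) - C d f m f := by linarith
    rw [h5, hCf]
    have h6 : (f : ℝ) = 2 * g := by exact_mod_cast hg
    rw [h6]
    ring
  · have h1 : f / 2 = g := by omega
    have h2 := sum_even H g (by omega)
    rw [h1]
    have h3 : f - 1 = 2 * g := by omega
    rw [h3, h2, hCf]
    have h6 : (f : ℝ) = 2 * g + 1 := by exact_mod_cast hg
    rw [h6]
    ring

theorem lower (d : ℕ) (hd : 3 ≤ d) (ε : ℝ) (hε : 0 < ε) :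
    ∀ᶠ n : ℕ in atTop, (n : ℝ) ^ (3 + ((harmonic ((d - 1) / 4) : ℚ) : ℝ) / 2 -
      (2 * (((d - 1) / 4 : ℕ) : ℝ) + 1) / d - ε) ≤ RS.f d n := by
  wlog hε1 : ε ≤ 1 with H
  · have h1 := H d hd 1 one_pos le_rfl
    filter_upwards [h1, eventually_ge_atTop 1] with n hn hn1
    refine le_trans (Real.rpow_le_rpow_of_exponent_le (by exact_mod_cast hn1) ?_) hn
    push Not at hε1
    linarith
  set f := (d - 1) / 2 with hf
  have hf1 : 1 ≤ f := by omega
  have hg : (d - 1) / 4 = f / 2 := by omega
  rw [hg]
  obtain ⟨w, hw⟩ := exists_nat_gt (((f : ℝ) + 3) / ε)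
  have hw0 : (0 : ℝ) < w := lt_of_le_of_lt (by positivity) hw
  have hw1 : 1 ≤ w := by
    have : (0 : ℕ) < w := by exact_mod_cast hw0
    omega
  set m := d * f.factorial * w with hm
  have hfac : 1 ≤ f.factorial := Nat.factorial_pos f
  have hmw : w ≤ m := by
    rw [hm]
    exact Nat.le_mul_of_pos_left w (Nat.mul_pos (by omega) hfac)
  have H : Hyp d f m := by
    refine ⟨hf1, by omega, by omega, by omega, ?_, ?_⟩
    · rw [hm, mul_assoc]
      exact Dvd.intro _ rfl
    · intro j hj1 hj
      rw [hm]
      exact Dvd.dvd.mul_right (Dvd.dvd.mul_left (Nat.dvd_factorial (by omega) hj) d) w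
  have hE := scheme_E H
  have hsum := sum_eq H
  have hd0 : (0 : ℝ) < d := by
    have : 0 < d := by omega
    exact_mod_cast this
  have hgd : (2 * ((f / 2 : ℕ) : ℝ) + 1) / d ≤ 1 := by
    rw [div_le_one hd0]
    have : 2 * (f / 2) + 1 ≤ d := by omega
    exact_mod_cast this
  have hH0 : (0 : ℝ) ≤ ((harmonic (f / 2) : ℚ) : ℝ) := by
    unfold harmonic
    push_cast
    positivity
  apply (scheme H).eventually_n
  · linarith
  · have hE' : ((scheme H).E : ℝ) + (f + 3) + 2 * (f * C d f m f) =
        6 * m + 2 * ∑ j ∈ range (f - 1), (C d f m (j + 1) : ℝ) := by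
      exact_mod_cast hE
    have h1 : ((scheme H).E : ℝ) = 6 * m - (f + 3) + 2 * (m * (((harmonic (f / 2) : ℚ) : ℝ) / 2 -
        (2 * ((f / 2 : ℕ) : ℝ) + 1) / d)) := by
      rw [← hsum]
      linarith
    rw [h1]
    have hmw' : (w : ℝ) ≤ m := by exact_mod_cast hmw
    have h2 : (f : ℝ) + 3 < ε * m := by
      have h3 : ((f : ℝ) + 3) / ε < m := by linarith
      rw [div_lt_iff₀ hε] at h3
      linarith
    have h4 : (3 + ((harmonic (f / 2) : ℚ) : ℝ) / 2 - (2 * ((f / 2 : ℕ) : ℝ) + 1) / d - ε) *
        (2 * m) = 6 * m + 2 * (m * (((harmonic (f / 2) : ℚ) : ℝ) / 2 -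
        (2 * ((f / 2 : ℕ) : ℝ) + 1) / d)) - 2 * (ε * m) := by ring
    rw [h4]
    have h5 : 0 < ε * m := lt_of_le_of_lt (by positivity) h2
    linarith

end Alt

end Pool.Agent.H46.SR
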