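import Mathlib

/-! Averages over finite types. -/

namespace Pool.Agent.H46.SR

open Finset

/-- the average of `f` over a finite type -/
noncomputable def av {Ω : Type*} [Fintype Ω] (f : Ω → ℝ) : ℝ :=
  (∑ ω, f ω) / (Fintype.card Ω : ℝ)

section
variable {Ω Ω' : Type*} [Fintype Ω] [Fintype Ω']

theorem av_mono {f g : Ω → ℝ} (h : ∀ ω, f ω ≤ g ω) : av f ≤ av g := by
  unfold av
  apply div_le_div_of_nonneg_right _ (Nat.cast_nonneg _)
  exact Finset.sum_le_sum (fun ω _ => h ω)

theorem av_nonneg {f : Ω → ℝ} (h : ∀ ω, 0 ≤ f ω) : 0 ≤ av f := by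
  unfold av
  exact div_nonneg (Finset.sum_nonneg (fun ω _ => h ω)) (Nat.cast_nonneg _)

theorem av_congr {f g : Ω → ℝ} (h : ∀ ω, f ω = g ω) : av f = av g := by
  unfold av
  rw [Finset.sum_congr rfl (fun ω _ => h ω)]

theorem av_const [Nonempty Ω] (c : ℝ) : av (fun _ : Ω => c) = c := by
  unfold av
  have h : (Fintype.card Ω : ℝ) ≠ 0 := by
    have := Fintype.card_pos (α := Ω)
    positivity
  rw [Finset.sum_const, nsmul_eq_mul, Finset.card_univ]
  field_simp

theorem av_add (f g : Ω → ℝ) : av (fun ω => f ω + g ω) = av f + av g := by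
  unfold av
  rw [Finset.sum_add_distrib, add_div]

theorem av_mul_left (c : ℝ) (f : Ω → ℝ) : av (fun ω => c * f ω) = c * av f := by
  unfold av
  rw [← Finset.mul_sum, mul_div_assoc]

theorem av_mul_right (c : ℝ) (f : Ω → ℝ) : av (fun ω => f ω * c) = av f * c := by
  unfold av
  rw [← Finset.sum_mul]
  ring

theorem av_sum {ι : Type*} (s : Finset ι) (f : ι → Ω → ℝ) :
    av (fun ω => ∑ i ∈ s, f i ω) = ∑ i ∈ s, av (f i) := by
  unfold av
  rw [Finset.sum_comm, Finset.sum_div]

theorem av_equiv (e : Ω ≃ Ω') (f : Ω' → ℝ) : av (fun ω => f (e ω)) = av f := by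
  unfold av
  rw [Equiv.sum_comp e f, Fintype.card_congr e]

theorem av_prod (f : Ω × Ω' → ℝ) : av f = av (fun a => av (fun b => f (a, b))) := by
  unfold av
  rw [Fintype.sum_prod_type, Fintype.card_prod, ← Finset.sum_div, div_div]
  push_cast
  rw [mul_comm (Fintype.card Ω : ℝ)]

theorem av_prod_mul (f : Ω → ℝ) (g : Ω' → ℝ) :
    av (fun p : Ω × Ω' => f p.1 * g p.2) = av f * av g := by
  rw [av_prod]
  have : ∀ a, av (fun b => f a * g b) = f a * av g := fun a => av_mul_left _ _
  simp only [this]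
  exact av_mul_right _ _

/-- Cauchy-Schwarz -/
theorem av_cs (f g : Ω → ℝ) :
    av (fun ω => f ω * g ω) ≤ Real.sqrt (av (fun ω => f ω ^ 2)) * Real.sqrt (av (fun ω => g ω ^ 2)) := by
  unfold av
  have h := Real.sum_mul_le_sqrt_mul_sqrt (univ : Finset Ω) f g
  rcases Nat.eq_zero_or_pos (Fintype.card Ω) with h0 | h0
  · simp [h0]
  have h0' : (0 : ℝ) < (Fintype.card Ω : ℝ) := by exact_mod_cast h0
  rw [Real.sqrt_div (Finset.sum_nonneg (fun ω _ => sq_nonneg _)),
    Real.sqrt_div (Finset.sum_nonneg (fun ω _ => sq_nonneg _)), div_mul_div_comm,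
    Real.mul_self_sqrt h0'.le]
  exact div_le_div_of_nonneg_right h h0'.le

end

/-- average of a product over a product space -/
theorem av_pi_prod {ι B : Type*} [Fintype ι] [DecidableEq ι] [Fintype B] (f : ι → B → ℝ) :
    av (fun ω : ι → B => ∏ i, f i (ω i)) = ∏ i, av (f i) := by
  unfold av
  rw [Finset.prod_div_distrib, Finset.prod_const, Finset.card_univ, Fintype.card_fun]
  push_cast
  congr 1
  rw [Finset.prod_univ_sum]
  simp

/-- marginals: precomposition with an injective map -/
theorem av_comp_inj {C D B : Type*} [Fintype C] [Fintype D] [Fintype B] [Nonempty B]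
    [DecidableEq C] [DecidableEq D]
    (σ : C → D) (hσ : Function.Injective σ) (f : (C → B) → ℝ) :
    av (fun ω : D → B => f (fun c => ω (σ c))) = av f := by
  classical
  set e : C ⊕ {d // d ∉ Set.range σ} ≃ D :=
    (Equiv.sumCongr (Equiv.ofInjective σ hσ) (Equiv.refl _)).trans
      (Equiv.sumCompl (fun d => d ∈ Set.range σ)) with he
  have hel : ∀ c, e (Sum.inl c) = σ c := by
    intro c
    rw [he]
    simp
  set E : (D → B) ≃ (C → B) × ({d // d ∉ Set.range σ} → B) :=
    (Equiv.arrowCongr e.symm (Equiv.refl B)).trans (Equiv.sumArrowEquivProdArrow _ _ _) with hE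
  have h1 : av (fun ω : D → B => f (fun c => ω (σ c))) =
      av (fun ω : D → B => (fun p : (C → B) × ({d // d ∉ Set.range σ} → B) => f p.1) (E ω)) := by
    apply av_congr
    intro ω
    have h2 : (E ω).1 = fun c => ω (σ c) := by
      funext c
      rw [hE]
      simp [Equiv.sumArrowEquivProdArrow, Equiv.arrowCongr, hel]
    simp only [h2]
  rw [h1, av_equiv E (fun p : (C → B) × ({d // d ∉ Set.range σ} → B) => f p.1), av_prod]
  apply av_congr
  intro a
  show av (fun _ => f a) = f a
  exact av_const _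

end Pool.Agent.H46.SR
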