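import Pool.Agent.H46.SR.Main

/-! From a scheme to a lower bound for `f d n`. -/

namespace Pool.Agent.H46.SR

open Finset Pool.Agent.H68.RS Filter Topology

theorem lt_R {n N : ℕ} (hn : 1 ≤ n) {d : ℕ} {M : Fin n → Fin n → Prop}
    (hM : ∀ r, {c | M r c}.ncard ≤ d) {χ : Fin N → Fin N → Bool} (h : ¬ HasMonoCopy M χ) :
    N < R M := by
  by_contra hcon
  push Not at hcon
  have hmem : R M ∈ {N : ℕ | ∀ χ : Fin N → Fin N → Bool, HasMonoCopy M χ} := by
    apply Nat.sInf_mem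
    exact ⟨n ^ (d + 1), fun χ => hasMonoCopy hn M hM χ⟩
  obtain ⟨b, f, g, hf, hg, hfg⟩ := hmem (fun a c => χ (Fin.castLE hcon a) (Fin.castLE hcon c))
  apply h
  refine ⟨b, fun i => Fin.castLE hcon (f i), fun i => Fin.castLE hcon (g i), ?_, ?_, hfg⟩
  · intro i j hij
    exact hf hij
  · intro i j hij
    exact hg hij

theorem le_f {n : ℕ} (hn : 1 ≤ n) {d : ℕ} {M : Fin n → Fin n → Prop}
    (hM : ∀ r, {c | M r c}.ncard ≤ d) : R M ≤ f d n := by
  unfold f
  apply le_csSup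
  · refine ⟨n ^ (d + 1), ?_⟩
    rintro m ⟨M, hM, rfl⟩
    exact R_le hn M hM
  · exact ⟨M, hM, rfl⟩

namespace Scheme

variable {d J m : ℕ} (P : Scheme d J m)

theorem lower_z {z : ℕ} (hz4 : 2 ^ (d * J + 1) ≤ z) (hzd : d ≤ z)
    (h12 : 12 * 2 ^ (d + 1) ≤ (z : ℝ))
    (h1 : 24 * (2 ^ (d + 1)) ^ 2 * 2 ^ J * d * (P.E * Real.log z) ≤ z)
    (h2 : Real.exp (-((z : ℝ) / (4 * 2 ^ (d + 1)))) ≤ 2 * d * (P.E * Real.log z) / (z : ℝ) ^ m)
    {n : ℕ} (hn : z ^ (2 * m) ≤ n) : z ^ P.E < f d n := by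
  have hz1 : 1 ≤ z := le_trans (Nat.one_le_two_pow) hz4
  have hz0 : (0 : ℝ) < z := by exact_mod_cast hz1
  have hz12 : (48 : ℝ) ≤ z := by
    have h4 : (4 : ℝ) ≤ 2 ^ (d + 1) := by
      calc (4 : ℝ) = 2 ^ 2 := by norm_num
        _ ≤ 2 ^ (d + 1) := pow_le_pow_right₀ (by norm_num) (by have := P.hd; omega)
    linarith
  have hm1 : 1 ≤ m := by have := P.ha 0; omega
  have : NeZero (z ^ m) := ⟨by positivity⟩
  set N : ℕ := z ^ P.E with hN
  have hlen : len (P.u z) (P.r z) J = N := P.len_eq z J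
  set L : ℝ := P.E * Real.log z with hL
  have hLN : Real.log (N : ℝ) = L := by
    rw [hN]
    push_cast
    rw [Real.log_pow]
  have hlogz : 2 * Real.log 2 < Real.log z := by
    have h5 : 2 * Real.log 2 = Real.log 4 := by
      rw [show (4 : ℝ) = 2 ^ (2 : ℕ) by norm_num, Real.log_pow]
      norm_num
    rw [h5]
    exact Real.log_lt_log (by norm_num) (by linarith)
  have hE1 : 1 ≤ P.E := by
    unfold E
    have := P.ha1 0
    omega
  have hlog2 : 0 < Real.log 2 := Real.log_pos (by norm_num)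
  have hL2 : 2 * Real.log 2 < L := by
    have h5 : (1 : ℝ) ≤ P.E := by exact_mod_cast hE1
    rw [hL]
    nlinarith
  have hL0 : 0 < L := by linarith
  have hd1 : (1 : ℝ) ≤ d := by exact_mod_cast P.hd
  set Λ : ℝ := 2 * d * L / (z : ℝ) ^ m with hΛ
  have hΛ0 : 0 < Λ := by positivity
  have hzm : (z : ℝ) ^ m = z * (z : ℝ) ^ (m - 1) := by
    rw [← pow_succ']
    congr 1
    omega
  have hphi := P.phi_claim hz4 hΛ0 (by
    rw [hΛ, hzm]
    have h5 : 12 * (2 ^ (d + 1)) ^ 2 * 2 ^ J * (2 * d * L / (z * (z : ℝ) ^ (m - 1))) *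
        (z : ℝ) ^ (m - 1) = (24 * (2 ^ (d + 1)) ^ 2 * 2 ^ J * d * L) / z := by
      field_simp
      ring
    rw [h5, div_le_one hz0]
    exact h1) h2 J le_rfl Λ le_rfl (by simp)
  have haJ : P.a J = 0 := by
    unfold a
    rw [P.hA, mul_zero]
  rw [haJ, Nat.sub_zero] at hphi
  have hq : ∀ j, 0 < P.q z j := fun j => by have := P.q_ge hz1 j; omega
  obtain ⟨ω, hω⟩ := exists_sample (P.u z) (P.q z) (P.r z) hq hlen hphi (by
    have hNpos : (0 : ℝ) < N := by rw [hN]; positivity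
    have h5 : (2 : ℝ) = Real.exp (Real.log 2) := (Real.exp_log (by norm_num)).symm
    have h6 : (N : ℝ) ^ (z ^ m * d) = Real.exp ((z ^ m * d : ℕ) * L) := by
      rw [← hLN, ← Real.log_pow, Real.exp_log (by positivity)]
    rw [h6]
    nth_rewrite 1 [h5]
    rw [← Real.exp_add, ← Real.exp_add, ← Real.exp_add]
    rw [Real.exp_lt_one_iff]
    have h7 : Λ * (z : ℝ) ^ m = 2 * d * L := by
      rw [hΛ]
      field_simp
    have h8 : 3 * 2 ^ (d + 1) * (z : ℝ) ^ (2 * m - 1) ≤ ((z : ℝ) ^ m) ^ 2 / 4 := by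
      have h9 : ((z : ℝ) ^ m) ^ 2 = z * (z : ℝ) ^ (2 * m - 1) := by
        rw [← pow_mul, ← pow_succ']
        congr 1
        omega
      rw [h9]
      have : (0 : ℝ) < (z : ℝ) ^ (2 * m - 1) := by positivity
      nlinarith
    have h9 : Λ * (3 * 2 ^ (d + 1) * (z : ℝ) ^ (2 * m - 1)) ≤ 2 * d * L * (z : ℝ) ^ m / 4 := by
      calc Λ * (3 * 2 ^ (d + 1) * (z : ℝ) ^ (2 * m - 1)) ≤ Λ * (((z : ℝ) ^ m) ^ 2 / 4) :=
            mul_le_mul_of_nonneg_left h8 hΛ0.le
        _ = (Λ * (z : ℝ) ^ m) * (z : ℝ) ^ m / 4 := by ring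
        _ = _ := by rw [h7]
    have h10 : Λ * ((z ^ m * z ^ m : ℕ) : ℝ) = 2 * d * L * (z : ℝ) ^ m := by
      push_cast
      rw [← mul_assoc, h7]
    rw [h10]
    push_cast
    have h11 : (1 : ℝ) ≤ (z : ℝ) ^ m := one_le_pow₀ (by linarith)
    have h12 : L ≤ d * L * (z : ℝ) ^ m := by
      have h13 : (1 : ℝ) ≤ d * (z : ℝ) ^ m := by nlinarith
      nlinarith
    nlinarith) hΛ0.le
  have hkk : z ^ m * z ^ m ≤ n := by
    have : z ^ m * z ^ m = z ^ (2 * m) := by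
      rw [← pow_add]
      congr 1
      ring
    omega
  have hdk : d * z ^ m ≤ n := by
    refine le_trans ?_ hkk
    apply Nat.mul_le_mul_right
    exact hzd.trans (Nat.le_self_pow (by omega) z)
  have hnc := no_copy (k := z ^ m) (d := d) (P.u z) (P.q z) (P.r z) hkk hdk ω hω
  have hn1 : 1 ≤ n := by
    have : 1 ≤ z ^ m * z ^ m := Nat.mul_pos (by positivity) (by positivity)
    omega
  calc N < Pool.Agent.H68.RS.R (MM (z ^ m) d n) := lt_R hn1 (MM_rows (z ^ m) d n) hnc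
    _ ≤ f d n := le_f hn1 (MM_rows (z ^ m) d n)

theorem eventually_z : ∀ᶠ z : ℕ in atTop, ∀ n, z ^ (2 * m) ≤ n → z ^ P.E < f d n := by
  have hE1 : 1 ≤ P.E := by
    unfold E
    have := P.ha1 0
    omega
  have e1 : ∀ᶠ z : ℕ in atTop, 2 ^ (d * J + 1) ≤ z := eventually_ge_atTop _
  have e2 : ∀ᶠ z : ℕ in atTop, d ≤ z := eventually_ge_atTop _
  have e3 : ∀ᶠ z : ℕ in atTop, (12 * 2 ^ (d + 1) : ℝ) ≤ (z : ℝ) :=
    tendsto_natCast_atTop_atTop.eventually (eventually_ge_atTop _)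
  have e4 : ∀ᶠ z : ℕ in atTop, 24 * (2 ^ (d + 1)) ^ 2 * 2 ^ J * d * (P.E * Real.log z) ≤ z := by
    set c : ℝ := 24 * (2 ^ (d + 1)) ^ 2 * 2 ^ J * d * P.E with hc
    have hc0 : 0 < c := by
      have h1 : (0 : ℝ) < d := by exact_mod_cast P.hd
      have h2 : (0 : ℝ) < P.E := by exact_mod_cast hE1
      positivity
    have h := (Real.isLittleO_log_id_atTop.bound (show 0 < 1 / c by positivity))
    have h' := tendsto_natCast_atTop_atTop.eventually h
    filter_upwards [h', eventually_ge_atTop 1] with z hz hz1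
    have hz1' : (1 : ℝ) ≤ (z : ℝ) := by exact_mod_cast hz1
    have hz0 : (0 : ℝ) ≤ (z : ℝ) := by linarith
    simp only [id, Real.norm_eq_abs, abs_of_nonneg (Real.log_nonneg hz1'), abs_of_nonneg hz0] at hz
    calc 24 * (2 ^ (d + 1)) ^ 2 * 2 ^ J * d * (P.E * Real.log z) = c * Real.log z := by
          rw [hc]; ring
      _ ≤ c * (1 / c * z) := mul_le_mul_of_nonneg_left hz hc0.le
      _ = z := by field_simp
  have e5 : ∀ᶠ z : ℕ in atTop, Real.exp (-((z : ℝ) / (4 * 2 ^ (d + 1)))) ≤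
      2 * d * (P.E * Real.log z) / (z : ℝ) ^ m := by
    set c : ℝ := 4 * 2 ^ (d + 1) with hc
    have hc0 : 0 < c := by positivity
    have h := Real.tendsto_pow_mul_exp_neg_atTop_nhds_zero m
    have h2 : Tendsto (fun z : ℕ => (z : ℝ) / c) atTop atTop :=
      tendsto_natCast_atTop_atTop.atTop_div_const hc0
    have h3 := (h.comp h2).eventually (gt_mem_nhds (show (0 : ℝ) < 1 / c ^ m by positivity))
    filter_upwards [h3, eventually_ge_atTop 3] with z hz hz3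
    have hz3' : (3 : ℝ) ≤ (z : ℝ) := by exact_mod_cast hz3
    have hlog : 1 ≤ Real.log z := by
      rw [Real.le_log_iff_exp_le (by linarith)]
      have := Real.exp_one_lt_d9
      linarith
    simp only [Function.comp] at hz
    rw [div_pow, div_mul_eq_mul_div, div_lt_div_iff_of_pos_right (by positivity)] at hz
    rw [le_div_iff₀ (by positivity), mul_comm]
    have h4 : (1 : ℝ) ≤ d := by exact_mod_cast P.hd
    have h5 : (1 : ℝ) ≤ P.E := by exact_mod_cast hE1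
    have h6 : 1 ≤ P.E * Real.log z := by nlinarith
    have h7 : 1 ≤ 2 * d * (P.E * Real.log z) := by nlinarith
    linarith
  filter_upwards [e1, e2, e3, e4, e5] with z h1 h2 h3 h4 h5 n hn
  exact P.lower_z h1 h2 h3 h4 h5 hn

theorem eventually_n {α : ℝ} (hα0 : 0 ≤ α) (hα : α * (2 * m) < P.E) :
    ∀ᶠ n : ℕ in atTop, (n : ℝ) ^ α ≤ f d n := by
  have hm1 : 1 ≤ m := by have := P.ha 0; omega
  have hm0 : (0 : ℝ) < 2 * m := by
    have : (1 : ℝ) ≤ m := by exact_mod_cast hm1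
    linarith
  have hz : Tendsto (fun n : ℕ => ⌊(n : ℝ) ^ (1 / (2 * m : ℝ))⌋₊) atTop atTop := by
    apply tendsto_nat_floor_atTop.comp
    exact (tendsto_rpow_atTop (by positivity)).comp tendsto_natCast_atTop_atTop
  have e1 := hz.eventually P.eventually_z
  have e2 : ∀ᶠ z : ℕ in atTop, (2 : ℝ) ^ (α * (2 * m)) ≤ (z : ℝ) ^ (P.E - α * (2 * m)) :=
    ((tendsto_rpow_atTop (by linarith)).comp tendsto_natCast_atTop_atTop).eventually
      (eventually_ge_atTop _)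
  have e3 := hz.eventually e2
  have e4 := hz.eventually (eventually_ge_atTop 1)
  filter_upwards [e1, e3, e4] with n h1 h2 h3
  set z := ⌊(n : ℝ) ^ (1 / (2 * m : ℝ))⌋₊ with hzdef
  have hz1 : (1 : ℝ) ≤ z := by exact_mod_cast h3
  have hn0 : (0 : ℝ) ≤ n := Nat.cast_nonneg _
  have hroot : ((n : ℝ) ^ (1 / (2 * m : ℝ))) ^ (2 * m) = n := by
    rw [← Real.rpow_natCast, ← Real.rpow_mul hn0]
    push_cast
    rw [one_div_mul_cancel hm0.ne', Real.rpow_one]
  have hle : z ^ (2 * m) ≤ n := by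
    have h4 : (z : ℝ) ≤ (n : ℝ) ^ (1 / (2 * m : ℝ)) := Nat.floor_le (by positivity)
    have h5 : (z : ℝ) ^ (2 * m) ≤ n := by
      rw [← hroot]
      exact pow_le_pow_left₀ (by linarith) h4 _
    exact_mod_cast h5
  have hlt : (n : ℝ) ≤ (2 * z : ℝ) ^ ((2 * m : ℕ) : ℝ) := by
    have h4 : (n : ℝ) ^ (1 / (2 * m : ℝ)) ≤ 2 * z := by
      have := (Nat.lt_floor_add_one ((n : ℝ) ^ (1 / (2 * m : ℝ)))).le
      rw [← hzdef] at this
      linarith
    rw [Real.rpow_natCast, ← hroot]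
    exact pow_le_pow_left₀ (by positivity) h4 _
  have hfin := h1 n hle
  have hfin' : (z : ℝ) ^ (P.E : ℝ) ≤ f d n := by
    rw [Real.rpow_natCast]
    exact_mod_cast hfin.le
  refine le_trans ?_ hfin'
  calc (n : ℝ) ^ α ≤ ((2 * z : ℝ) ^ ((2 * m : ℕ) : ℝ)) ^ α := Real.rpow_le_rpow hn0 hlt hα0
    _ = (2 * z : ℝ) ^ (α * (2 * m)) := by
        rw [← Real.rpow_mul (by linarith)]
        congr 1
        push_cast
        ring
    _ = (2 : ℝ) ^ (α * (2 * m)) * (z : ℝ) ^ (α * (2 * m)) :=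
        Real.mul_rpow (by norm_num) (by linarith)
    _ ≤ (z : ℝ) ^ (P.E - α * (2 * m)) * (z : ℝ) ^ (α * (2 * m)) :=
        mul_le_mul_of_nonneg_right h2 (by positivity)
    _ = (z : ℝ) ^ (P.E : ℝ) := by
        rw [← Real.rpow_add (by linarith)]
        congr 1
        ring

end Scheme

end Pool.Agent.H46.SR
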