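import Pool.Agent.H46.SR.Av

/-! The greedy embedding and its behaviour under concatenation. -/

namespace Pool.Agent.H46.SR

open Finset

open scoped Classical in
/-- greedy: the state `y` advances at time `t` if `G t y` -/
noncomputable def pos (G : ℕ → ℕ → Prop) : ℕ → ℕ → ℕ
  | 0, x => x
  | l + 1, x => if G l (pos G l x) then pos G l x + 1 else pos G l x

theorem pos_zero (G : ℕ → ℕ → Prop) (x : ℕ) : pos G 0 x = x := rfl

open scoped Classical in
theorem pos_succ (G : ℕ → ℕ → Prop) (l x : ℕ) :
    pos G (l + 1) x = if G l (pos G l x) then pos G l x + 1 else pos G l x := rfl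

theorem pos_add (G : ℕ → ℕ → Prop) (l m x : ℕ) :
    pos G (l + m) x = pos (fun t => G (l + t)) m (pos G l x) := by
  induction m with
  | zero => rfl
  | succ m ih =>
    rw [← add_assoc, pos_succ, ih, pos_succ]

theorem pos_congr {G G' : ℕ → ℕ → Prop} {l : ℕ} (h : ∀ t < l, ∀ x, G t x ↔ G' t x) (x : ℕ) :
    pos G l x = pos G' l x := by
  induction l with
  | zero => rfl
  | succ l ih =>
    rw [pos_succ, pos_succ, ih (fun t ht => h t (by omega))]
    have h1 := h l (by omega) (pos G' l x)
    by_cases h2 : G' l (pos G' l x)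
    · rw [if_pos (h1.mpr h2), if_pos h2]
    · rw [if_neg (fun h3 => h2 (h1.mp h3)), if_neg h2]

theorem pos_ge (G : ℕ → ℕ → Prop) (l x : ℕ) : x ≤ pos G l x := by
  induction l with
  | zero => exact le_rfl
  | succ l ih =>
    rw [pos_succ]
    split_ifs <;> omega

theorem pos_le (G : ℕ → ℕ → Prop) (l x : ℕ) : pos G l x ≤ x + l := by
  induction l with
  | zero => exact le_rfl
  | succ l ih =>
    rw [pos_succ]
    split_ifs <;> omega

theorem pos_mono_len (G : ℕ → ℕ → Prop) (x : ℕ) : Monotone (fun l => pos G l x) := by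
  apply monotone_nat_of_le_succ
  intro l
  simp only [pos_succ]
  split_ifs <;> omega

/-- if the greedy run passes from `x` to beyond `y`, then at some time `G t y` holds -/
theorem exists_of_lt_pos {G : ℕ → ℕ → Prop} {l x y : ℕ} (hxy : x ≤ y) (h : y < pos G l x) :
    ∃ t < l, G t y := by
  induction l with
  | zero =>
    rw [pos_zero] at h
    omega
  | succ l ih =>
    by_cases h1 : y < pos G l x
    · obtain ⟨t, ht, hG⟩ := ih h1
      exact ⟨t, by omega, hG⟩
    · rw [pos_succ] at h
      split_ifs at h with h2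
      · have : pos G l x = y := by omega
        rw [this] at h2
        exact ⟨l, by omega, h2⟩
      · exact absurd h h1

/-- the greedy run does at least as well as any embedding -/
theorem pos_ge_of_embed {G : ℕ → ℕ → Prop} {L n x : ℕ} (f : ℕ → ℕ)
    (hf : ∀ i j, i < j → j < n → f i < f j) (hL : ∀ i < n, f i < L)
    (hG : ∀ i < n, G (f i) (x + i)) : x + n ≤ pos G L x := by
  have key : ∀ i, i < n → x + i + 1 ≤ pos G (f i + 1) x := by
    intro i
    induction i with
    | zero =>
      intro h0
      rw [pos_succ]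
      have h1 := pos_ge G (f 0) x
      split_ifs with h2
      · omega
      · by_contra h3
        have h4 : pos G (f 0) x = x + 0 := by omega
        rw [h4] at h2
        exact h2 (hG 0 h0)
    | succ i ih =>
      intro hi
      have h1 := ih (by omega)
      have h2 : pos G (f i + 1) x ≤ pos G (f (i + 1)) x :=
        pos_mono_len G x (hf i (i + 1) (by omega) hi)
      rw [pos_succ]
      split_ifs with h3
      · omega
      · by_contra h4
        have h5 : pos G (f (i + 1)) x = x + (i + 1) := by omega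
        rw [h5] at h3
        exact h3 (hG (i + 1) hi)
  rcases Nat.eq_zero_or_pos n with hn | hn
  · subst hn
    exact pos_ge G L x
  · have h1 := key (n - 1) (by omega)
    have h2 : pos G (f (n - 1) + 1) x ≤ pos G L x :=
      pos_mono_len G x (hL (n - 1) (by omega))
    omega

/-- concatenation of `r` blocks of length `L` -/
def cat {B : Type*} (L : ℕ) (G : B → ℕ → ℕ → Prop) {r : ℕ} (β : Fin r → B) (t x : ℕ) : Prop :=
  ∃ h : t / L < r, G (β ⟨t / L, h⟩) (t % L) x

theorem cat_cons_lt {B : Type*} {L : ℕ} (G : B → ℕ → ℕ → Prop) {r : ℕ} (b : B) (β : Fin r → B)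
    {t : ℕ} (ht : t < L) (x : ℕ) :
    cat L G (Fin.cons b β : Fin (r + 1) → B) t x ↔ G b t x := by
  unfold cat
  have h1 : t / L = 0 := Nat.div_eq_of_lt ht
  have h2 : t % L = t := Nat.mod_eq_of_lt ht
  constructor
  · rintro ⟨h, hG⟩
    have h3 : (⟨t / L, h⟩ : Fin (r + 1)) = 0 := by
      apply Fin.ext
      simpa using h1
    rw [h3, h2] at hG
    exact hG
  · intro hG
    refine ⟨by omega, ?_⟩
    have h3 : (⟨t / L, by omega⟩ : Fin (r + 1)) = 0 := by
      apply Fin.ext
      simpa using h1
    rw [h3, h2]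
    exact hG

theorem cat_cons_ge {B : Type*} {L : ℕ} (hL : 0 < L) (G : B → ℕ → ℕ → Prop) {r : ℕ} (b : B)
    (β : Fin r → B) (t x : ℕ) :
    cat L G (Fin.cons b β : Fin (r + 1) → B) (L + t) x ↔ cat L G β t x := by
  unfold cat
  have h1 : (L + t) / L = t / L + 1 := by
    rw [Nat.add_div_left _ hL]
  have h2 : (L + t) % L = t % L := by simp
  constructor
  · rintro ⟨h, hG⟩
    have h3 : t / L < r := by omega
    refine ⟨h3, ?_⟩
    have h4 : (⟨(L + t) / L, h⟩ : Fin (r + 1)) = Fin.succ ⟨t / L, h3⟩ := by
      apply Fin.ext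
      simpa using h1
    rw [h4, h2, Fin.cons_succ] at hG
    exact hG
  · rintro ⟨h, hG⟩
    refine ⟨by omega, ?_⟩
    have h4 : (⟨(L + t) / L, by omega⟩ : Fin (r + 1)) = Fin.succ ⟨t / L, h⟩ := by
      apply Fin.ext
      simpa using h1
    rw [h4, h2, Fin.cons_succ]
    exact hG

/-- exponential moment of a concatenation of independent blocks -/
theorem chain {B : Type*} [Fintype B] {L : ℕ} (hL : 0 < L) (G : B → ℕ → ℕ → Prop)
    {lam Ψ : ℝ} (h0 : 0 ≤ Ψ)
    (h : ∀ x, av (fun b : B => Real.exp (lam * ((pos (G b) L x : ℝ) - x))) ≤ Ψ) (r : ℕ) :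
    ∀ x, av (fun β : Fin r → B => Real.exp (lam * ((pos (cat L G β) (r * L) x : ℝ) - x)))
      ≤ Ψ ^ r := by
  induction r with
  | zero =>
    intro x
    simp only [zero_mul, pos_zero, sub_self, mul_zero, Real.exp_zero, pow_zero]
    exact (av_const (Ω := Fin 0 → B) 1).le
  | succ r ih =>
    intro x
    have e := (Fin.consEquiv (fun _ : Fin (r + 1) => B))
    rw [← av_equiv (Fin.consEquiv (fun _ : Fin (r + 1) => B))
      (fun β : Fin (r + 1) → B => Real.exp (lam * ((pos (cat L G β) ((r + 1) * L) x : ℝ) - x))),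
      av_prod]
    have h1 : ∀ b : B, av (fun β : Fin r → B => Real.exp (lam *
        ((pos (cat L G ((Fin.consEquiv (fun _ : Fin (r + 1) => B)) (b, β))) ((r + 1) * L) x : ℝ)
          - x))) ≤ Real.exp (lam * ((pos (G b) L x : ℝ) - x)) * Ψ ^ r := by
      intro b
      have h2 : ∀ β : Fin r → B, Real.exp (lam *
        ((pos (cat L G ((Fin.consEquiv (fun _ : Fin (r + 1) => B)) (b, β))) ((r + 1) * L) x : ℝ)
          - x)) = Real.exp (lam * ((pos (G b) L x : ℝ) - x)) *
          Real.exp (lam * ((pos (cat L G β) (r * L) (pos (G b) L x) : ℝ) - pos (G b) L x)) := by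
        intro β
        rw [← Real.exp_add]
        congr 1
        have h3 : pos (cat L G ((Fin.consEquiv (fun _ : Fin (r + 1) => B)) (b, β)))
            ((r + 1) * L) x = pos (cat L G β) (r * L) (pos (G b) L x) := by
          have h4 : (r + 1) * L = L + r * L := by ring
          rw [h4, pos_add]
          have h5 : pos (cat L G ((Fin.consEquiv (fun _ : Fin (r + 1) => B)) (b, β))) L x
              = pos (G b) L x := by
            apply pos_congr
            intro t ht y
            exact cat_cons_lt G b β ht y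
          rw [h5]
          apply pos_congr
          intro t _ y
          exact cat_cons_ge hL G b β t y
        rw [h3]
        ring
      simp only [h2]
      rw [av_mul_left]
      exact mul_le_mul_of_nonneg_left (ih _) (Real.exp_pos _).le
    calc _ ≤ av (fun b : B => Real.exp (lam * ((pos (G b) L x : ℝ) - x)) * Ψ ^ r) :=
          av_mono h1
      _ = av (fun b : B => Real.exp (lam * ((pos (G b) L x : ℝ) - x))) * Ψ ^ r :=
          av_mul_right _ _
      _ ≤ Ψ * Ψ ^ r := mul_le_mul_of_nonneg_right (h x) (pow_nonneg h0 _)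
      _ = Ψ ^ (r + 1) := by ring

end Pool.Agent.H46.SR
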