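import Pool.Agent.H46.SR.Final

/-! The harmonic scheme: exponent `2 + H_⌊d/2⌋ / 2`. -/

namespace Pool.Agent.H46.SR

open Finset Pool.Agent.H68.RS Filter Topology

namespace Harm

/-- phases -/
def nxt (a : ℕ) (s : ℕ × ℕ) : ℕ × ℕ := if s.2 + 1 < a / (s.1 + 1) then (s.1, s.2 + 1) else (s.1 + 1, 0)

def st (a : ℕ) : ℕ → ℕ × ℕ
  | 0 => (0, 0)
  | j + 1 => nxt a (st a j)

def cum (a p : ℕ) : ℕ := ∑ i ∈ range p, a / (i + 1)

theorem cum_succ (a p : ℕ) : cum a (p + 1) = cum a p + a / (p + 1) := by
  unfold cum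
  rw [Finset.sum_range_succ]

theorem cum_mono (a : ℕ) : Monotone (cum a) := by
  apply monotone_nat_of_le_succ
  intro p
  rw [cum_succ]
  exact Nat.le_add_right _ _

theorem st_inv (a g : ℕ) (hga : g ≤ a) : ∀ j, j < cum a g →
    (st a j).1 < g ∧ (st a j).2 < a / ((st a j).1 + 1) ∧ j = cum a (st a j).1 + (st a j).2 := by
  intro j
  induction j with
  | zero =>
    intro h
    have hg : 0 < g := by
      rcases Nat.eq_zero_or_pos g with h0 | h0
      · subst h0
        simp [cum] at h
      · exact h0
    refine ⟨hg, ?_, ?_⟩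
    · show 0 < a / (0 + 1)
      rw [zero_add, Nat.div_one]
      omega
    · show 0 = cum a 0 + 0
      simp [cum]
  | succ j ih =>
    intro h
    obtain ⟨h1, h2, h3⟩ := ih (by omega)
    have hst : st a (j + 1) = nxt a (st a j) := rfl
    rw [hst]
    unfold nxt
    split_ifs with h4
    · exact ⟨h1, h4, by simp only; omega⟩
    · simp only
      have h5 : (st a j).2 + 1 = a / ((st a j).1 + 1) := by omega
      have h6 : j + 1 = cum a ((st a j).1 + 1) := by
        rw [cum_succ]
        omega
      have h7 : (st a j).1 + 1 < g := by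
        by_contra h8
        have : cum a g ≤ cum a ((st a j).1 + 1) := cum_mono a (by omega)
        omega
      refine ⟨h7, ?_, by omega⟩
      exact Nat.div_pos (by omega) (by omega)

variable (a g : ℕ)

/-- number of levels -/
def JJ : ℕ := cum a g

def e (j : ℕ) : ℕ := if j + 1 < JJ a g then (st a j).1 + 1 else 2 * g
def A (j : ℕ) : ℕ := if j + 1 < JJ a g then a / ((st a j).1 + 1) else 0
def θ (j b : ℕ) : ℕ :=
  if j + 1 < JJ a g then (if (st a j).1 + 1 ≤ b then A a g j * (b - (st a j).1) - (st a j).2 else 0)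
  else if 2 * g ≤ b then 1 else 0

variable {a g}

theorem eA (hdiv : ∀ i, i < g → (i + 1) ∣ a) (hga : g ≤ a) {j : ℕ} (hj : j + 1 < JJ a g) :
    e a g j * A a g j = a := by
  unfold e A
  rw [if_pos hj, if_pos hj]
  have h := st_inv a g hga j (by unfold JJ at hj; omega)
  exact Nat.mul_div_cancel' (hdiv _ h.1)

theorem eA' {j : ℕ} (hj : ¬ (j + 1 < JJ a g)) : e a g j * A a g j = 0 := by
  unfold A
  rw [if_neg hj, mul_zero]

theorem rec_ge (hga : g ≤ a) {j : ℕ} (hj : j + 1 < JJ a g) (b m' : ℕ) (hm : m' ≤ b)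
    (hb : (st a j).1 + 1 ≤ b) :
    A a g j * (b - (st a j).1) ≤ m' * A a g j + θ a g j (b - m') + (st a j).2 := by
  have h := st_inv a g hga j (by unfold JJ at hj; omega)
  unfold θ
  rw [if_pos hj]
  have hA : A a g j = a / ((st a j).1 + 1) := by unfold A; rw [if_pos hj]
  rw [hA]
  obtain ⟨h1, h2, -⟩ := h
  generalize a / ((st a j).1 + 1) = x at *
  generalize (st a j).1 = p at *
  generalize (st a j).2 = i at *
  obtain ⟨c, rfl⟩ : ∃ c, b = p + 1 + c := ⟨b - (p + 1), by omega⟩
  have e1 : p + 1 + c - p = c + 1 := by omega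
  rw [e1]
  split_ifs with h3
  · obtain ⟨c', rfl⟩ : ∃ c', c = m' + c' := ⟨c - m', by omega⟩
    have e2 : p + 1 + (m' + c') - m' - p = c' + 1 := by omega
    rw [e2]
    have h4 : x * (m' + c' + 1) = m' * x + x * (c' + 1) := by ring
    rw [h4]
    omega
  · have h4 : c + 1 ≤ m' := by omega
    have h5 : x * (c + 1) ≤ m' * x := by
      rw [mul_comm x]
      exact Nat.mul_le_mul_right _ h4
    omega

/-- facts about the last lower level -/
theorem last (hga : g ≤ a) (hg : 1 ≤ g) (h2 : 2 ≤ a / g) {j : ℕ} (hj : j + 2 = JJ a g) :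
    (st a j).1 + 1 = g ∧ (st a j).2 + 2 = a / g := by
  have hJ : JJ a g = cum a (g - 1) + a / g := by
    unfold JJ
    conv_lhs => rw [show g = (g - 1) + 1 by omega]
    rw [cum_succ, show g - 1 + 1 = g by omega]
  have h := st_inv a g hga j (by unfold JJ at hj; omega)
  obtain ⟨h3, h4, h5⟩ := h
  have h6 : (st a j).1 + 1 = g := by
    by_contra h7
    have h8 : (st a j).1 + 1 ≤ g - 1 := by omega
    have h9 : cum a ((st a j).1 + 1) ≤ cum a (g - 1) := cum_mono a h8
    rw [cum_succ] at h9
    omega
  refine ⟨h6, ?_⟩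
  have h7 : (st a j).1 = g - 1 := by omega
  rw [h7] at h5
  omega

/-- the harmonic scheme -/
def scheme {d : ℕ} (hdiv : ∀ i, i < g → (i + 1) ∣ a) (hg : 1 ≤ g) (h2 : 2 ≤ a / g)
    (hgd : 2 * g ≤ d) : Scheme d (JJ a g) (a + 1) where
  e := e a g
  A := A a g
  θ := θ a g
  hd := by omega
  hJ := by
    unfold JJ
    have h1 : cum a 1 ≤ cum a g := cum_mono a hg
    have h3 : cum a 1 = a := by simp [cum]
    have h4 : a / g ≤ a := Nat.div_le_self a g
    omega
  he := by
    intro j
    unfold e
    split_ifs with h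
    · have hga : g ≤ a := by
        have := Nat.div_mul_le_self a g
        nlinarith
      have := (st_inv a g hga j (by unfold JJ at h; omega)).1
      omega
    · exact hgd
  ha := by
    intro j
    have hga : g ≤ a := by
      have := Nat.div_mul_le_self a g
      nlinarith
    by_cases h : j + 1 < JJ a g
    · rw [eA hdiv hga h]
    · rw [eA' h]
      omega
  hA := by unfold A; rw [if_neg (by omega)]
  hA' := by
    unfold A
    rw [if_neg (by omega)]
  hθ0 := by
    unfold θ
    split_ifs with h1 h2 h3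
    · omega
    · rfl
    · omega
    · rfl
  hθs := by
    intro j hj b hb
    have hga : g ≤ a := by
      have := Nat.div_mul_le_self a g
      nlinarith
    rw [eA hdiv hga hj]
    have hinv := st_inv a g hga j (by unfold JJ at hj; omega)
    by_cases h : j + 1 + 1 < JJ a g
    · rw [eA hdiv hga h]
      have hR : 2 * (a + 1) - 1 - a - a = 1 := by omega
      rw [hR]
      have hθ : θ a g (j + 1) b = if (st a (j + 1)).1 + 1 ≤ b then
          A a g (j + 1) * (b - (st a (j + 1)).1) - (st a (j + 1)).2 else 0 := by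
        unfold θ
        rw [if_pos h]
      have hA1 : A a g (j + 1) = a / ((st a (j + 1)).1 + 1) := by unfold A; rw [if_pos h]
      have hA0 : A a g j = a / ((st a j).1 + 1) := by unfold A; rw [if_pos hj]
      by_cases hb1 : (st a (j + 1)).1 + 1 ≤ b
      · right
        intro m' hm'
        rw [hθ, if_pos hb1, hA1]
        have hst : st a (j + 1) = nxt a (st a j) := rfl
        have hinv1 := st_inv a g hga (j + 1) (by unfold JJ at h; omega)
        rw [hst] at hb1 hinv1 ⊢
        unfold nxt at hb1 hinv1 ⊢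
        split_ifs at hb1 hinv1 ⊢ with hc
        · simp only at hb1 hinv1 ⊢
          have hr := rec_ge hga hj b m' hm' hb1
          rw [hA0] at hr ⊢
          have h5 : a / ((st a j).1 + 1) * 1 ≤ a / ((st a j).1 + 1) * (b - (st a j).1) :=
            Nat.mul_le_mul_left _ (by omega)
          omega
        · simp only at hb1 hinv1 ⊢
          have hr := rec_ge hga hj b m' hm' (by omega)
          rw [hA0] at hr ⊢
          have h5 : a / ((st a j).1 + 1 + 1) * (b - ((st a j).1 + 1)) ≤
              a / ((st a j).1 + 1) * (b - ((st a j).1 + 1)) :=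
            Nat.mul_le_mul_right _ (Nat.div_le_div_left (by omega) (by omega))
          have h6 : a / ((st a j).1 + 1) * (b - (st a j).1) =
              a / ((st a j).1 + 1) * (b - ((st a j).1 + 1)) + a / ((st a j).1 + 1) := by
            have : b - (st a j).1 = (b - ((st a j).1 + 1)) + 1 := by omega
            rw [this, Nat.mul_add, mul_one]
          omega
      · left
        rw [hθ, if_neg hb1]
    · rw [eA' h]
      have hlast := last hga hg h2 (j := j) (by omega)
      have hθ : θ a g (j + 1) b = if 2 * g ≤ b then 1 else 0 := by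
        unfold θ
        rw [if_neg h]
      rw [hθ]
      by_cases hb1 : 2 * g ≤ b
      · right
        intro m' hm'
        rw [if_pos hb1]
        have hr := rec_ge hga hj b m' hm' (by omega)
        have hA0 : A a g j = a / g := by
          unfold A
          rw [if_pos hj, hlast.1]
        have haj : a = g * (a / g) := (Nat.mul_div_cancel' (by
          have := hdiv (g - 1) (by omega)
          rwa [Nat.sub_add_cancel hg] at this)).symm
        rw [hA0] at hr ⊢
        have h5 : a / g * (g + 1) ≤ a / g * (b - (st a j).1) :=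
          Nat.mul_le_mul_left _ (by omega)
        have h6 : a / g * (g + 1) = g * (a / g) + a / g := by ring
        omega
      · left
        rw [if_neg hb1]
  hθe := by
    intro j hj
    have hga : g ≤ a := by
      have := Nat.div_mul_le_self a g
      nlinarith
    have hinv := st_inv a g hga j (by unfold JJ at hj; omega)
    by_cases h : j + 1 < JJ a g
    · unfold θ e A
      rw [if_pos h, if_pos h, if_pos h, if_pos le_rfl]
      have : (st a j).1 + 1 - (st a j).1 = 1 := by omega
      rw [this, mul_one]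
      omega
    · unfold θ e
      rw [if_neg h, if_neg h, if_pos le_rfl]

theorem scheme_E {d : ℕ} (hdiv : ∀ i, i < g → (i + 1) ∣ a) (hg : 1 ≤ g) (h2 : 2 ≤ a / g)
    (hgd : 2 * g ≤ d) : (scheme hdiv hg h2 hgd).E = 4 * a + 1 + cum a g := by
  unfold Scheme.E Scheme.R Scheme.a
  have hsE : (scheme hdiv hg h2 hgd).e = e a g := rfl
  have hsA : (scheme hdiv hg h2 hgd).A = A a g := rfl
  rw [hsE, hsA]
  have hga : g ≤ a := by
    have := Nat.div_mul_le_self a g
    nlinarith
  have hJ2 : 2 ≤ JJ a g := by
    unfold JJ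
    have h1 : cum a 1 ≤ cum a g := cum_mono a hg
    have h3 : cum a 1 = a := by simp [cum]
    have h4 : a / g ≤ a := Nat.div_le_self a g
    omega
  obtain ⟨c, hc⟩ : ∃ c, JJ a g = c + 2 := ⟨JJ a g - 2, by omega⟩
  have hcJ : cum a g = c + 2 := hc
  rw [eA hdiv hga (j := 0) (by omega), hcJ]
  have hr : range (JJ a g) = range (c + 2) := by rw [hc]
  rw [hr, Finset.sum_range_succ, Finset.sum_range_succ, eA hdiv hga (j := c) (by omega),
    eA' (a := a) (g := g) (j := c + 1) (by omega), eA' (a := a) (g := g) (j := c + 1 + 1) (by omega)]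
  have hsum : ∑ j ∈ range c, (2 * (a + 1) - 1 - e a g j * A a g j -
      e a g (j + 1) * A a g (j + 1)) = ∑ _j ∈ range c, 1 := by
    apply Finset.sum_congr rfl
    intro j hj
    rw [mem_range] at hj
    rw [eA hdiv hga (j := j) (by omega), eA hdiv hga (j := j + 1) (by omega)]
    omega
  rw [hsum]
  simp only [sum_const, card_range, smul_eq_mul, mul_one]
  omega

theorem cum_eq (a g : ℕ) (hdiv : ∀ i, i < g → (i + 1) ∣ a) :
    (cum a g : ℝ) = a * ((harmonic g : ℚ) : ℝ) := by
  unfold cum harmonic
  push_cast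
  rw [Finset.mul_sum]
  apply Finset.sum_congr rfl
  intro i hi
  rw [mem_range] at hi
  rw [Nat.cast_div (hdiv i hi) (by positivity)]
  push_cast
  rw [div_eq_mul_inv]

theorem lower (d : ℕ) (hd : 2 ≤ d) (ε : ℝ) (hε : 0 < ε) :
    ∀ᶠ n : ℕ in atTop, (n : ℝ) ^ (2 + ((harmonic (d / 2) : ℚ) : ℝ) / 2 - ε) ≤ f d n := by
  wlog hε1 : ε ≤ 1 with H
  · have h1 := H d hd 1 one_pos le_rfl
    filter_upwards [h1, eventually_ge_atTop 1] with n hn hn1
    refine le_trans (Real.rpow_le_rpow_of_exponent_le (by exact_mod_cast hn1) ?_) hn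
    push Not at hε1
    linarith
  set g := d / 2 with hg
  have hg1 : 1 ≤ g := by omega
  have hH0 : (0 : ℝ) ≤ ((harmonic g : ℚ) : ℝ) := by
    unfold harmonic
    push_cast
    positivity
  obtain ⟨w, hw⟩ := exists_nat_gt ((3 + ((harmonic g : ℚ) : ℝ)) / ε + 2)
  have hw2 : (2 : ℝ) < w := lt_of_le_of_lt (by
    have : 0 ≤ (3 + ((harmonic g : ℚ) : ℝ)) / ε := by positivity
    linarith) hw
  have hw2' : 2 < w := by exact_mod_cast hw2
  set a := g.factorial * w with ha
  have hdiv : ∀ i, i < g → (i + 1) ∣ a := by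
    intro i hi
    exact Dvd.dvd.mul_right (Nat.dvd_factorial (by omega) (by omega)) w
  have hfac : 1 ≤ g.factorial := Nat.factorial_pos g
  have h2 : 2 ≤ a / g := by
    rw [Nat.le_div_iff_mul_le (by omega), ha]
    have : g ≤ g.factorial := Nat.self_le_factorial g
    nlinarith
  have hE := scheme_E (d := d) hdiv hg1 h2 (by omega)
  apply (scheme (d := d) hdiv hg1 h2 (by omega)).eventually_n
  · linarith
  · rw [hE]
    push_cast
    rw [cum_eq a g hdiv]
    have haw : (w : ℝ) ≤ a := by
      rw [ha]
      push_cast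
      have h3 : (1 : ℝ) ≤ (g.factorial : ℝ) := by exact_mod_cast hfac
      nlinarith
    have h3 : 3 + ((harmonic g : ℚ) : ℝ) < ε * a := by
      have h4 : (3 + ((harmonic g : ℚ) : ℝ)) / ε < a := by linarith
      rw [div_lt_iff₀ hε] at h4
      linarith
    nlinarith

end Harm

end Pool.Agent.H46.SR
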