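import Pool.Agent.H46.SR.Scheme

/-! The lower bound for a scheme. -/

namespace Pool.Agent.H46.SR

open Finset Pool.Agent.H68.RS

theorem PhiLe.mono {k d : ℕ} [NeZero k] {u : ℕ} {q r : ℕ → ℕ} {j : ℕ} {lam C C' : ℝ}
    (h : PhiLe u q r k d j lam C) (hC : C ≤ C') : PhiLe u q r k d j lam C' :=
  fun W x => (h W x).trans hC

namespace Scheme

variable {d J m : ℕ} (P : Scheme d J m)

theorem phi_claim {z : ℕ} [NeZero (z ^ m)] (hz4 : 2 ^ (d * J + 1) ≤ z) {Λ : ℝ}
    (hΛ : 0 < Λ)
    (h1 : 12 * (2 ^ (d + 1)) ^ 2 * 2 ^ J * Λ * (z : ℝ) ^ (m - 1) ≤ 1)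
    (h2 : Real.exp (-((z : ℝ) / (4 * 2 ^ (d + 1)))) ≤ Λ) :
    ∀ j ≤ J, ∀ μ, Λ ≤ μ → μ ≤ 2 ^ (J - j) * Λ →
      PhiLe (P.u z) (P.q z) (P.r z) (z ^ m) d j μ
        (Real.exp (μ * (3 * 2 ^ (d + 1) * (z : ℝ) ^ (2 * m - 1 - P.a j)))) := by
  have hz1 : 1 ≤ z := le_trans (Nat.one_le_two_pow) hz4
  have hz0 : (0 : ℝ) < z := by exact_mod_cast hz1
  have hz1' : (1 : ℝ) ≤ z := by exact_mod_cast hz1
  have hq2 := P.q_ge hz1
  have hq : ∀ j, 0 < P.q z j := fun j => by have := hq2 j; omega
  set D : ℝ := 2 ^ (d + 1) with hD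
  have hD4 : (4 : ℝ) ≤ D := by
    rw [hD]
    calc (4 : ℝ) = 2 ^ 2 := by norm_num
      _ ≤ 2 ^ (d + 1) := pow_le_pow_right₀ (by norm_num) (by have := P.hd; omega)
  intro j
  induction j with
  | zero =>
    intro _ μ hμ _
    have hμ0 : 0 ≤ μ := by linarith
    refine (phi_zero (P.u z) (P.q z) (P.r z) hμ0).mono ?_
    apply Real.exp_le_exp.mpr
    apply mul_le_mul_of_nonneg_left _ hμ0
    unfold u
    push_cast
    have : (0 : ℝ) < (z : ℝ) ^ (2 * m - 1 - P.a 0) := by positivity
    nlinarith
  | succ j ih =>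
    intro hj μ hμ hμ'
    have hμ0 : 0 < μ := by linarith
    have hJj : J - j = (J - (j + 1)) + 1 := by omega
    have hphi := ih (by omega) (2 * μ) (by linarith) (by rw [hJj, pow_succ]; linarith)
    -- notation
    set Y : ℝ := (z : ℝ) ^ P.a j with hY
    set Z : ℝ := (z : ℝ) ^ (m - 1) with hZ
    have haj := P.ha1 j
    have hY1 : 1 ≤ Y := one_le_pow₀ hz1'
    have hYZ : Y ≤ Z := pow_le_pow_right₀ hz1' (by omega)
    have hZm : ((z ^ m : ℕ) : ℝ) = z * Z := by
      push_cast
      rw [hZ, ← pow_succ']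
      congr 1
      omega
    have hT : (z : ℝ) ^ (2 * m - 1 - P.a j) = z * Z ^ 2 / Y := by
      rw [eq_div_iff (by positivity), hY, hZ, ← pow_mul, ← pow_add, ← pow_succ']
      congr 1
      omega
    have hμJ : μ ≤ 2 ^ J * Λ := by
      refine hμ'.trans ?_
      apply mul_le_mul_of_nonneg_right _ hΛ.le
      exact pow_le_pow_right₀ (by norm_num) (by omega)
    have hA0 : 12 * D ^ 2 * μ * Z ≤ 1 := by
      refine le_trans ?_ h1
      have : 0 ≤ 12 * D ^ 2 * Z := by positivity
      nlinarith
    have hY0 : 0 < Y := by linarith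
    have hZ0 : 0 < Z := by linarith
    have hD0 : 0 < D := by linarith
    set s : ℝ := 1 / (D * Y) with hs
    have hs0 : 0 < s := by positivity
    have hsD : s ≤ 1 / 4 := by
      rw [hs]
      apply one_div_le_one_div_of_le (by norm_num)
      nlinarith
    -- μ ≤ s / 4
    have hμs : μ ≤ s / 4 := by
      rw [hs, div_div, le_div_iff₀ (by positivity)]
      have h3 : D ≤ 3 * D ^ 2 := by nlinarith
      calc μ * (D * Y * 4) = 4 * μ * (D * Y) := by ring
        _ ≤ 4 * μ * (3 * D ^ 2 * Z) := by
            apply mul_le_mul_of_nonneg_left _ (by linarith)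
            exact mul_le_mul h3 hYZ hY0.le (by positivity)
        _ = 12 * D ^ 2 * μ * Z := by ring
        _ ≤ 1 := hA0
    -- stuck probability
    have hal : ∀ w : Fin d → Bool, av (fun c : Fin d → Fin (P.q z j) × S (P.q z) (P.r z) j =>
        ind (alive (P.u z) (P.q z) (P.r z) j w c)) ≤ 1 - s := by
      intro w
      refine (alive_le (P.u z) (P.q z) (P.r z) hq2 (P.he j) (P.Qs_half hz4 (by omega)) w).trans ?_
      have h3 : s ≤ (1 / 2) * (1 / (P.q z j : ℝ)) ^ P.e j := by
        have h4 : ((P.q z j : ℝ)) ^ P.e j ≤ 2 ^ d * Y := by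
          unfold q
          push_cast
          rw [mul_pow, ← pow_mul, hY]
          unfold a
          rw [mul_comm (P.A j)]
          apply mul_le_mul_of_nonneg_right _ (by positivity)
          exact pow_le_pow_right₀ (by norm_num) (P.he j)
        rw [one_div_pow, hs, ← one_div_mul_one_div_rev]
        have h5 : (0 : ℝ) < (P.q z j : ℝ) ^ P.e j := by
          have : (0 : ℝ) < P.q z j := by exact_mod_cast hq j
          positivity
        have h6 : 1 / (2 ^ d * Y) ≤ 1 / (P.q z j : ℝ) ^ P.e j :=
          one_div_le_one_div_of_le h5 h4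
        have h7 : 1 / Y * (1 / D) = 1 / 2 * (1 / (2 ^ d * Y)) := by
          rw [hD, pow_succ]
          field_simp
        rw [h7]
        exact mul_le_mul_of_nonneg_left h6 (by norm_num)
      linarith
    have hpsi := psi_bound (P.u z) (P.q z) (P.r z) (k := z ^ m) hμ0.le hs0 (by linarith) hμs hal hq
      hphi
    have hlen : 0 < len (P.u z) (P.r z) j := by
      rw [P.len_eq]
      positivity
    -- bound of psi
    have hpsi2 : 1 + 2 * μ / s + Real.sqrt (Real.exp (2 * μ * (3 * D *
        (z : ℝ) ^ (2 * m - 1 - P.a j)))) * Real.sqrt ((1 - s) ^ (z ^ m)) ≤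
        Real.exp (3 * μ / s) := by
      have h3 : Real.sqrt (Real.exp (2 * μ * (3 * D * (z : ℝ) ^ (2 * m - 1 - P.a j)))) =
          Real.exp (μ * (3 * D * (z : ℝ) ^ (2 * m - 1 - P.a j))) := by
        rw [← Real.exp_half]
        congr 1
        ring
      have h4 : Real.sqrt ((1 - s) ^ (z ^ m)) ≤ Real.exp (-(s * (z * Z) / 2)) := by
        have h5 : (1 - s) ^ (z ^ m) ≤ Real.exp (-(s * (z * Z))) := by
          calc (1 - s) ^ (z ^ m) ≤ (Real.exp (-s)) ^ (z ^ m) := by
                apply pow_le_pow_left₀ (by linarith)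
                have := Real.add_one_le_exp (-s)
                linarith
            _ = Real.exp (-(s * (z * Z))) := by
                rw [← Real.exp_nat_mul]
                congr 1
                rw [hZm]
                ring
        refine (Real.sqrt_le_sqrt h5).trans (le_of_eq ?_)
        rw [← Real.exp_half]
        congr 1
        ring
      have h5 : μ * (3 * D * (z : ℝ) ^ (2 * m - 1 - P.a j)) ≤ s * (z * Z) / 4 := by
        rw [hT, hs]
        rw [div_mul_eq_mul_div, one_mul, div_div, le_div_iff₀ (by positivity)]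
        calc μ * (3 * D * (z * Z ^ 2 / Y)) * (D * Y * 4) = (12 * D ^ 2 * μ * Z) * (z * Z) := by
              field_simp
              ring
          _ ≤ 1 * (z * Z) := by
              apply mul_le_mul_of_nonneg_right hA0 (by positivity)
          _ = z * Z := one_mul _
      have h6 : Real.sqrt (Real.exp (2 * μ * (3 * D * (z : ℝ) ^ (2 * m - 1 - P.a j)))) *
          Real.sqrt ((1 - s) ^ (z ^ m)) ≤ μ / s := by
        rw [h3]
        calc _ ≤ Real.exp (μ * (3 * D * (z : ℝ) ^ (2 * m - 1 - P.a j))) *
              Real.exp (-(s * (z * Z) / 2)) :=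
              mul_le_mul_of_nonneg_left h4 (Real.exp_pos _).le
          _ = Real.exp (μ * (3 * D * (z : ℝ) ^ (2 * m - 1 - P.a j)) + -(s * (z * Z) / 2)) := by
              rw [Real.exp_add]
          _ ≤ Real.exp (-(z / (4 * D))) := by
              apply Real.exp_le_exp.mpr
              have h7 : (z : ℝ) / (4 * D) ≤ s * (z * Z) / 4 := by
                have h8 : (z : ℝ) / (4 * D) = (1 / D) * z / 4 := by
                  field_simp
                have h9 : s * (z * Z) / 4 = (1 / D) * z / 4 * (Z / Y) := by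
                  rw [hs]
                  field_simp
                rw [h8, h9]
                have h10 : 1 ≤ Z / Y := by
                  rw [le_div_iff₀ hY0]
                  linarith
                have h11 : 0 ≤ (1 / D) * z / 4 := by positivity
                nlinarith
              linarith
          _ ≤ Λ := h2
          _ ≤ μ := hμ
          _ ≤ μ / s := by
              rw [le_div_iff₀ hs0]
              nlinarith
      have h7 := Real.add_one_le_exp (3 * μ / s)
      have h8 : 3 * μ / s = 2 * μ / s + μ / s := by ring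
      linarith
    have hfin := phi_succ (P.u z) (P.q z) (P.r z) hlen (by positivity)
      (fun W x => (hpsi W x).trans hpsi2)
    refine hfin.mono ?_
    rw [← Real.exp_nat_mul]
    apply Real.exp_le_exp.mpr
    have h3 : ((P.r z j : ℕ) : ℝ) * (3 * μ / s) = μ * (3 * D * (z : ℝ) ^ (2 * m - 1 - P.a (j + 1))) := by
      unfold r R
      push_cast
      rw [hs, div_div_eq_mul_div, div_one, hY]
      have h4 : (z : ℝ) ^ (2 * m - 1 - P.a (j + 1)) =
          (z : ℝ) ^ (2 * m - 1 - P.a j - P.a (j + 1)) * (z : ℝ) ^ P.a j := by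
        rw [← pow_add]
        congr 1
        have := P.ha1 (j + 1)
        omega
      rw [h4]
      ring
    rw [h3]

end Scheme

end Pool.Agent.H46.SR
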