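import Pool.Agent.H46.SR.Greedy

/-! The multi-scale process. -/

namespace Pool.Agent.H46.SR

open Finset

/-- sample space of one column at level `j` -/
def S (q r : ℕ → ℕ) : ℕ → Type
  | 0 => Unit
  | j + 1 => Fin (r j) → Fin (q j) × S q r j

instance instFintypeS (q r : ℕ → ℕ) : ∀ j, Fintype (S q r j)
  | 0 => inferInstanceAs (Fintype Unit)
  | j + 1 =>
    haveI := instFintypeS q r j
    inferInstanceAs (Fintype (Fin (r j) → Fin (q j) × S q r j))

theorem nonempty_S (q r : ℕ → ℕ) (hq : ∀ j, 0 < q j) : ∀ j, Nonempty (S q r j)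
  | 0 => ⟨()⟩
  | j + 1 => by
    obtain ⟨s⟩ := nonempty_S q r hq j
    exact ⟨fun _ => (⟨0, hq j⟩, s)⟩

/-- length of a level `j` block -/
def len (u : ℕ) (r : ℕ → ℕ) : ℕ → ℕ
  | 0 => u
  | j + 1 => r j * len u r j

theorem len_pos {u : ℕ} {r : ℕ → ℕ} (hu : 0 < u) (hr : ∀ j, 0 < r j) (j : ℕ) : 0 < len u r j := by
  induction j with
  | zero => exact hu
  | succ j ih => exact Nat.mul_pos (hr j) ih

/-- the process -/
def X (u : ℕ) (q r : ℕ → ℕ) : (j : ℕ) → S q r j → ℕ → Bool
  | 0, _, _ => false
  | j + 1, ω, t =>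
    if h : t / len u r j < r j then
      xor (decide ((ω ⟨t / len u r j, h⟩).1.val = 0))
        (X u q r j (ω ⟨t / len u r j, h⟩).2 (t % len u r j))
    else false

theorem X_zero (u : ℕ) (q r : ℕ → ℕ) (ω : S q r 0) (t : ℕ) : X u q r 0 ω t = false := rfl

theorem X_succ (u : ℕ) (q r : ℕ → ℕ) (j : ℕ) (ω : S q r (j + 1)) (t : ℕ)
    (h : t / len u r j < r j) :
    X u q r (j + 1) ω t = xor (decide ((ω ⟨t / len u r j, h⟩).1.val = 0))
        (X u q r j (ω ⟨t / len u r j, h⟩).2 (t % len u r j)) := by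
  show (if h : t / len u r j < r j then
      xor (decide ((ω ⟨t / len u r j, h⟩).1.val = 0))
        (X u q r j (ω ⟨t / len u r j, h⟩).2 (t % len u r j))
    else false) = _
  rw [dif_pos h]

section
variable {k d : ℕ} [NeZero k]

/-- group number -/
def grp (k : ℕ) [NeZero k] (x : ℕ) : Fin k := Fin.ofNat k x

/-- all columns of the group of `x` are good at time `t` -/
def GG (V : Fin k → Fin d → ℕ → Bool) (t x : ℕ) : Prop := ∀ i, V (grp k x) i t = true

variable (u : ℕ) (q r : ℕ → ℕ)

/-- colours in a level `j` block with parent pattern `W` -/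
def Vn (j : ℕ) (W : Fin k → Fin d → Bool) (ω : Fin k → Fin d → S q r j) :
    Fin k → Fin d → ℕ → Bool :=
  fun g i t => xor (W g i) (X u q r j (ω g i) t)

/-- colours in a level `j` block with fresh flips -/
def Vb (j : ℕ) (W : Fin k → Fin d → Bool) (b : Fin k → Fin d → Fin (q j) × S q r j) :
    Fin k → Fin d → ℕ → Bool :=
  fun g i t => xor (W g i) (xor (decide ((b g i).1.val = 0)) (X u q r j (b g i).2 t))

/-- exponential moment of the number of rows embedded into a level `j` block -/
def PhiLe (k d : ℕ) [NeZero k] (j : ℕ) (lam C : ℝ) : Prop :=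
  ∀ (W : Fin k → Fin d → Bool) (x : ℕ), av (fun ω : Fin k → Fin d → S q r j =>
    Real.exp (lam * ((pos (GG (Vn u q r j W ω)) (len u r j) x : ℝ) - x))) ≤ C

/-- the same with fresh flips -/
def PsiLe (k d : ℕ) [NeZero k] (j : ℕ) (lam C : ℝ) : Prop :=
  ∀ (W : Fin k → Fin d → Bool) (x : ℕ), av (fun b : Fin k → Fin d → Fin (q j) × S q r j =>
    Real.exp (lam * ((pos (GG (Vb u q r j W b)) (len u r j) x : ℝ) - x))) ≤ C

theorem phi_zero {lam : ℝ} (hl : 0 ≤ lam) : PhiLe u q r k d 0 lam (Real.exp (lam * u)) := by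
  intro W x
  have : Nonempty (S q r 0) := ⟨()⟩
  calc _ ≤ av (fun _ : Fin k → Fin d → S q r 0 => Real.exp (lam * u)) := by
        apply av_mono
        intro ω
        apply Real.exp_le_exp.mpr
        apply mul_le_mul_of_nonneg_left _ hl
        have h1 := pos_le (GG (Vn u q r 0 W ω)) (len u r 0) x
        have h2 : (pos (GG (Vn u q r 0 W ω)) (len u r 0) x : ℝ) ≤ x + u := by
          exact_mod_cast h1
        linarith
    _ = Real.exp (lam * u) := av_const _

/-- swap of the block index -/
def swapE (A : Type*) (k d m : ℕ) : (Fin k → Fin d → Fin m → A) ≃ (Fin m → Fin k → Fin d → A) where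
  toFun ω := fun b g i => ω g i b
  invFun β := fun g i b => β b g i
  left_inv _ := rfl
  right_inv _ := rfl

/-- splitting of pairs -/
def splitE (A B : Type*) (k d : ℕ) :
    (Fin k → Fin d → A × B) ≃ (Fin k → Fin d → A) × (Fin k → Fin d → B) where
  toFun ω := (fun g i => (ω g i).1, fun g i => (ω g i).2)
  invFun p := fun g i => (p.1 g i, p.2 g i)
  left_inv _ := rfl
  right_inv _ := rfl

theorem phi_succ {j : ℕ} {lam C : ℝ} (hlen : 0 < len u r j) (hC : 0 ≤ C)
    (h : PsiLe u q r k d j lam C) : PhiLe u q r k d (j + 1) lam (C ^ (r j)) := by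
  intro W x
  have h1 := chain hlen (fun b : Fin k → Fin d → Fin (q j) × S q r j => GG (Vb u q r j W b))
    hC (h W) (r j) x
  refine le_trans (le_of_eq ?_) h1
  rw [← av_equiv (swapE (Fin (q j) × S q r j) k d (r j))]
  apply av_congr
  intro ω
  congr 1
  congr 1
  congr 1
  congr 1
  apply pos_congr
  intro t ht y
  have ht' : t / len u r j < r j := by
    rw [Nat.div_lt_iff_lt_mul hlen]
    exact ht
  unfold cat GG Vn Vb
  constructor
  · intro hG
    refine ⟨ht', fun i => ?_⟩
    have := hG i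
    rw [X_succ u q r j _ t ht'] at this
    exact this
  · rintro ⟨_, hG⟩ i
    rw [X_succ u q r j _ t ht']
    exact hG i

theorem psi_of_phi {j : ℕ} {lam C : ℝ} (hq : ∀ j, 0 < q j) (h : PhiLe u q r k d j lam C) :
    PsiLe u q r k d j lam C := by
  intro W x
  have : Nonempty (Fin (q j)) := ⟨⟨0, hq j⟩⟩
  rw [← av_equiv (splitE (Fin (q j)) (S q r j) k d).symm, av_prod]
  calc _ ≤ av (fun _ : Fin k → Fin d → Fin (q j) => C) := by
        apply av_mono
        intro F
        refine le_trans (le_of_eq ?_) (h (fun g i => xor (W g i) (decide ((F g i).val = 0))) x)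
        apply av_congr
        intro ω
        congr 1
        congr 1
        congr 1
        congr 1
        apply pos_congr
        intro t _ y
        unfold GG Vn Vb splitE
        simp
    _ = C := av_const _

end

end Pool.Agent.H46.SR
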