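import Pool.Agent.H46.SR.Stuck

/-! The probability that several independent columns are simultaneously flipped. -/

namespace Pool.Agent.H46.SR

open Finset

variable {d : ℕ}
variable (u : ℕ) (q r : ℕ → ℕ)

/-- probability that the columns of `B` are simultaneously `true` at some time -/
noncomputable def Qs (d : ℕ) (j : ℕ) (B : Finset (Fin d)) : ℝ :=
  av (fun ω : Fin d → S q r j => ind (∃ t < len u r j, ∀ i ∈ B, X u q r j (ω i) t = true))

theorem Qs_nonneg (j : ℕ) (B : Finset (Fin d)) : 0 ≤ Qs u q r d j B :=
  av_nonneg (fun _ => ind_nonneg _)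

theorem Qs_le_one (hq : ∀ j, 0 < q j) (j : ℕ) (B : Finset (Fin d)) : Qs u q r d j B ≤ 1 := by
  have : Nonempty (S q r j) := nonempty_S q r hq j
  exact (av_mono (fun _ => ind_le_one _)).trans (av_const 1).le

theorem Qs_zero {B : Finset (Fin d)} (hB : B.Nonempty) : Qs u q r d 0 B = 0 := by
  have : Nonempty (S q r 0) := ⟨()⟩
  unfold Qs
  have : ∀ ω : Fin d → S q r 0, ind (∃ t < len u r 0, ∀ i ∈ B, X u q r 0 (ω i) t = true) = 0 := by
    intro ω
    apply ind_neg
    rintro ⟨t, _, h⟩
    obtain ⟨i, hi⟩ := hB
    have := h i hi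
    rw [X_zero] at this
    exact absurd this (by simp)
  simp only [this]
  exact av_const 0

theorem av_eval {B : Type*} [Fintype B] [Nonempty B] {r : ℕ} (i : Fin r) (f : B → ℝ) :
    av (fun β : Fin r → B => f (β i)) = av f := by
  have h := av_comp_inj (C := Unit) (D := Fin r) (B := B) (fun _ => i)
    (fun _ _ _ => rfl) (fun ω => f (ω ()))
  rw [h]
  exact av_equiv (Equiv.funUnique Unit B) f

theorem av_ind_zero {m : ℕ} (hm : 0 < m) : av (fun a : Fin m => ind (a.val = 0)) = 1 / (m : ℝ) := by
  unfold av
  rw [Fintype.card_fin]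
  congr 1
  rw [Finset.sum_eq_single (⟨0, hm⟩ : Fin m)]
  · exact ind_pos rfl
  · intro b _ hb
    apply ind_neg
    intro h
    exact hb (Fin.ext h)
  · intro h
    exact absurd (mem_univ _) h

/-- swap of the block index for one group -/
def swapE1 (A : Type*) (d m : ℕ) : (Fin d → Fin m → A) ≃ (Fin m → Fin d → A) where
  toFun ω := fun b i => ω i b
  invFun β := fun i b => β b i
  left_inv _ := rfl
  right_inv _ := rfl

/-- splitting of pairs for one group -/
def splitE1 (A B : Type*) (d : ℕ) : (Fin d → A × B) ≃ (Fin d → A) × (Fin d → B) where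
  toFun ω := (fun i => (ω i).1, fun i => (ω i).2)
  invFun p := fun i => (p.1 i, p.2 i)
  left_inv _ := rfl
  right_inv _ := rfl

theorem Qs_succ (hq : ∀ j, 0 < q j) {j : ℕ} (hlen : 0 < len u r j) (B : Finset (Fin d)) :
    Qs u q r d (j + 1) B ≤
      r j * ∑ A ∈ B.powerset, (1 / (q j : ℝ)) ^ A.card * Qs u q r d j (B \ A) := by
  classical
  have : Nonempty (Fin (q j)) := ⟨⟨0, hq j⟩⟩
  have : Nonempty (S q r j) := nonempty_S q r hq j
  -- the event in one block
  obtain ⟨ev, hev⟩ : ∃ ev : (Fin d → Fin (q j) × S q r j) → ℝ, ∀ c, ev c =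
      ind (∃ t < len u r j, ∀ i ∈ B,
        xor (decide ((c i).1.val = 0)) (X u q r j (c i).2 t) = true) := ⟨_, fun _ => rfl⟩
  have h1 : Qs u q r d (j + 1) B ≤ r j * av ev := by
    unfold Qs
    have e1 : ∀ ω : Fin d → S q r (j + 1),
        ind (∃ t < len u r (j + 1), ∀ i ∈ B, X u q r (j + 1) (ω i) t = true) ≤
        ∑ b : Fin (r j), (fun β : Fin (r j) → Fin d → Fin (q j) × S q r j => ev (β b))
          (swapE1 (Fin (q j) × S q r j) d (r j) ω) := by
      intro ω
      by_cases h : ∃ t < len u r (j + 1), ∀ i ∈ B, X u q r (j + 1) (ω i) t = true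
      · rw [ind_pos h]
        obtain ⟨t, ht, hall⟩ := h
        have ht' : t / len u r j < r j := by
          rw [Nat.div_lt_iff_lt_mul hlen]
          exact ht
        refine le_trans ?_ (Finset.single_le_sum (f := fun b : Fin (r j) =>
          (fun β : Fin (r j) → Fin d → Fin (q j) × S q r j => ev (β b))
          (swapE1 (Fin (q j) × S q r j) d (r j) ω)) ?_ (mem_univ ⟨t / len u r j, ht'⟩))
        · simp only
          rw [hev, ind_pos]
          refine ⟨t % len u r j, Nat.mod_lt _ hlen, fun i hi => ?_⟩
          have := hall i hi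
          rw [X_succ u q r j _ t ht'] at this
          exact this
        · intro b _
          simp only
          rw [hev]
          exact ind_nonneg _
      · rw [ind_neg h]
        apply Finset.sum_nonneg
        intro b _
        simp only
        rw [hev]
        exact ind_nonneg _
    refine le_trans (av_mono e1) ?_
    refine le_trans (le_of_eq (av_equiv (swapE1 (Fin (q j) × S q r j) d (r j))
      (fun β : Fin (r j) → Fin d → Fin (q j) × S q r j => ∑ b : Fin (r j), ev (β b)))) ?_
    rw [av_sum]
    have : ∀ b : Fin (r j), av (fun β : Fin (r j) → Fin d → Fin (q j) × S q r j => ev (β b))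
        = av ev := fun b => av_eval b ev
    rw [Finset.sum_congr rfl (fun b _ => this b)]
    simp
  refine le_trans h1 (mul_le_mul_of_nonneg_left ?_ (Nat.cast_nonneg _))
  -- split by the set of flipped columns
  have h2 : ∀ c, ev c ≤ ∑ A ∈ B.powerset, (∏ i, (if i ∈ A then ind ((c i).1.val = 0) else 1)) *
      ind (∃ t < len u r j, ∀ i ∈ B \ A, X u q r j (c i).2 t = true) := by
    intro c
    have hnn : ∀ A ∈ B.powerset, 0 ≤ (∏ i, (if i ∈ A then ind ((c i).1.val = 0) else 1)) *
      ind (∃ t < len u r j, ∀ i ∈ B \ A, X u q r j (c i).2 t = true) := by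
      intro A _
      apply mul_nonneg _ (ind_nonneg _)
      apply Finset.prod_nonneg
      intro i _
      split_ifs
      · exact ind_nonneg _
      · norm_num
    rw [hev]
    by_cases h : ∃ t < len u r j, ∀ i ∈ B,
        xor (decide ((c i).1.val = 0)) (X u q r j (c i).2 t) = true
    · rw [ind_pos h]
      obtain ⟨t, ht, hall⟩ := h
      set A : Finset (Fin d) := B.filter (fun i => (c i).1.val = 0) with hA
      refine le_trans ?_ (Finset.single_le_sum hnn (mem_powerset.mpr (filter_subset _ B) :
        A ∈ B.powerset))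
      rw [ind_pos (p := ∃ t < len u r j, ∀ i ∈ B \ A, X u q r j (c i).2 t = true), mul_one]
      · apply le_of_eq
        symm
        apply Finset.prod_eq_one
        intro i _
        split_ifs with hi
        · apply ind_pos
          rw [hA, mem_filter] at hi
          exact hi.2
        · rfl
      · refine ⟨t, ht, fun i hi => ?_⟩
        rw [mem_sdiff, hA, mem_filter, not_and] at hi
        have h3 := hall i hi.1
        have h4 := hi.2 hi.1
        simp only [h4, decide_false, Bool.false_xor] at h3
        exact h3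
    · rw [ind_neg h]
      exact Finset.sum_nonneg hnn
  refine le_trans (av_mono h2) ?_
  rw [av_sum]
  apply le_of_eq
  apply Finset.sum_congr rfl
  intro A _
  rw [← av_equiv (splitE1 (Fin (q j)) (S q r j) d).symm]
  refine Eq.trans (av_prod_mul
    (fun F : Fin d → Fin (q j) => ∏ i, (if i ∈ A then ind ((F i).val = 0) else 1))
    (fun ω : Fin d → S q r j => ind (∃ t < len u r j, ∀ i ∈ B \ A, X u q r j (ω i) t = true))) ?_
  congr 1
  rw [av_pi_prod (fun (i : Fin d) (a : Fin (q j)) => if i ∈ A then ind (a.val = 0) else 1)]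
  have h3 : ∀ i : Fin d, av (fun a : Fin (q j) => if i ∈ A then ind (a.val = 0) else 1) =
      if i ∈ A then 1 / (q j : ℝ) else 1 := by
    intro i
    split_ifs with hi
    · exact av_ind_zero (hq j)
    · exact av_const 1
  rw [Finset.prod_congr rfl (fun i _ => h3 i), Finset.prod_ite, Finset.prod_const,
    Finset.prod_const_one, mul_one]
  congr 2
  ext i
  simp

/-- lower bound for the probability of being stuck -/
theorem alive_le (hq2 : ∀ j, 2 ≤ q j) {j e : ℕ} (he : e ≤ d)
    (hQ : Qs u q r d j (univ.filter (fun i : Fin d => i.val < e)) ≤ 1 / 2) (w : Fin d → Bool) :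
    av (fun c : Fin d → Fin (q j) × S q r j => ind (alive u q r j w c)) ≤
      1 - (1 / 2) * (1 / (q j : ℝ)) ^ e := by
  classical
  have hq : ∀ j, 0 < q j := fun j => by have := hq2 j; omega
  have : Nonempty (Fin (q j)) := ⟨⟨0, hq j⟩⟩
  have : Nonempty (S q r j) := nonempty_S q r hq j
  set B : Finset (Fin d) := univ.filter (fun i : Fin d => i.val < e) with hB
  have hBc : B.card = e := by
    rw [hB, Fin.card_filter_val_lt]
    omega
  obtain ⟨f, hf⟩ : ∃ f : Fin d → Fin (q j) → ℝ, ∀ i a, f i a = if i ∈ B then
    ind (xor (w i) (decide (a.val = 0)) = false) else 1 := ⟨_, fun _ _ => rfl⟩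
  obtain ⟨g, hg⟩ : ∃ g : (Fin d → S q r j) → ℝ, ∀ ω, g ω = 1 -
    ind (∃ t < len u r j, ∀ i ∈ B, X u q r j (ω i) t = true) := ⟨_, fun _ => rfl⟩
  have hg0 : ∀ ω, 0 ≤ g ω := fun ω => by
    rw [hg]; linarith [ind_le_one (∃ t < len u r j, ∀ i ∈ B, X u q r j (ω i) t = true)]
  have hg1 : ∀ ω, g ω ≤ 1 := fun ω => by
    rw [hg]; linarith [ind_nonneg (∃ t < len u r j, ∀ i ∈ B, X u q r j (ω i) t = true)]
  have hf0 : ∀ i a, 0 ≤ f i a := by
    intro i a; rw [hf]; split_ifs
    · exact ind_nonneg _
    · norm_num
  have hf1 : ∀ i a, f i a ≤ 1 := by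
    intro i a; rw [hf]; split_ifs
    · exact ind_le_one _
    · norm_num
  have h1 : ∀ c : Fin d → Fin (q j) × S q r j, ind (alive u q r j w c) ≤
      1 + (-1) * ((∏ i, f i (c i).1) * g (fun i => (c i).2)) := by
    intro c
    have hp0 : 0 ≤ ∏ i, f i (c i).1 := Finset.prod_nonneg (fun i _ => hf0 i _)
    have hp1 : ∏ i, f i (c i).1 ≤ 1 := Finset.prod_le_one (fun i _ => hf0 i _) (fun i _ => hf1 i _)
    by_cases h : alive u q r j w c
    · rw [ind_pos h]
      obtain ⟨t, ht, hall⟩ := h
      have h2 : (∏ i, f i (c i).1) * g (fun i => (c i).2) = 0 := by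
        by_cases h3 : ∀ i ∈ B, xor (w i) (decide ((c i).1.val = 0)) = false
        · have : g (fun i => (c i).2) = 0 := by
            rw [hg, ind_pos]
            · norm_num
            · refine ⟨t, ht, fun i hi => ?_⟩
              have h4 := hall i
              rw [← Bool.xor_assoc, h3 i hi, Bool.false_xor] at h4
              exact h4
          rw [this, mul_zero]
        · push Not at h3
          obtain ⟨i, hi, hne⟩ := h3
          have : f i (c i).1 = 0 := by
            rw [hf, if_pos hi]
            exact ind_neg hne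
          rw [Finset.prod_eq_zero (mem_univ i) this, zero_mul]
      rw [h2]
      norm_num
    · rw [ind_neg h]
      have : (∏ i, f i (c i).1) * g (fun i => (c i).2) ≤ 1 :=
        mul_le_one₀ hp1 (hg0 _) (hg1 _)
      linarith
  refine le_trans (av_mono h1) ?_
  rw [av_add, av_const, av_mul_left]
  have h2 : av (fun c : Fin d → Fin (q j) × S q r j =>
      (∏ i, f i (c i).1) * g (fun i => (c i).2)) = (∏ i, av (f i)) * av g := by
    rw [← av_equiv (splitE1 (Fin (q j)) (S q r j) d).symm,
      ← av_pi_prod f, ← av_prod_mul (fun F : Fin d → Fin (q j) => ∏ i, f i (F i)) g]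
    rfl
  rw [h2]
  have h3 : 1 / 2 ≤ av g := by
    have : av g = 1 + (-1) * Qs u q r d j B := by
      unfold Qs
      rw [← av_mul_left, ← av_const (Ω := Fin d → S q r j) (1 : ℝ), ← av_add]
      · apply av_congr
        intro ω
        rw [hg, av_const]
        ring
    rw [this]
    linarith
  have h4 : (1 / (q j : ℝ)) ^ e ≤ ∏ i, av (f i) := by
    have h5 : ∀ i : Fin d, (if i ∈ B then 1 / (q j : ℝ) else 1) ≤ av (f i) := by
      intro i
      by_cases hi : i ∈ B
      · rw [if_pos hi]
        have hqj : (0 : ℝ) < q j := by exact_mod_cast hq j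
        unfold av
        rw [Fintype.card_fin]
        apply div_le_div_of_nonneg_right _ hqj.le
        have h6 : ∃ a : Fin (q j), f i a = 1 := by
          cases hw : w i with
          | true =>
            refine ⟨⟨0, hq j⟩, ?_⟩
            rw [hf, if_pos hi]
            apply ind_pos
            simp [hw]
          | false =>
            refine ⟨⟨1, by have := hq2 j; omega⟩, ?_⟩
            rw [hf, if_pos hi]
            apply ind_pos
            simp [hw]
        obtain ⟨a, ha⟩ := h6
        calc (1 : ℝ) = f i a := ha.symm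
          _ ≤ ∑ a, f i a := Finset.single_le_sum (fun a _ => hf0 i a) (mem_univ a)
      · rw [if_neg hi]
        have : f i = fun _ => 1 := by
          funext a
          rw [hf, if_neg hi]
        rw [this]
        exact (av_const 1).ge
    calc (1 / (q j : ℝ)) ^ e = ∏ i : Fin d, (if i ∈ B then 1 / (q j : ℝ) else 1) := by
          rw [Finset.prod_ite, Finset.prod_const, Finset.prod_const_one, mul_one, ← hBc]
          congr 2
          ext i
          simp
      _ ≤ _ := by
          apply Finset.prod_le_prod
          · intro i _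
            split_ifs
            · positivity
            · norm_num
          · intro i _
            exact h5 i
  have h5 : (1 / (q j : ℝ)) ^ e * (1 / 2) ≤ (∏ i, av (f i)) * av g :=
    mul_le_mul h4 h3 (by norm_num) (Finset.prod_nonneg (fun i _ => av_nonneg (hf0 i)))
  linarith

end Pool.Agent.H46.SR
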