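import Pool.Agent.H46.SR.Union

/-! The choice of the parameters. -/

namespace Pool.Agent.H46.SR

open Finset Pool.Agent.H68.RS

/-- integer exponents of a multi-scale scheme: scales `z ^ _` with `k = z ^ m` -/
structure Scheme (d J m : ℕ) where
  e : ℕ → ℕ
  A : ℕ → ℕ
  θ : ℕ → ℕ → ℕ
  hd : 1 ≤ d
  hJ : 1 ≤ J
  he : ∀ j, e j ≤ d
  ha : ∀ j, e j * A j + 1 ≤ m
  hA : A J = 0
  hA' : A (J - 1) = 0
  hθ0 : θ 0 0 = 0
  hθs : ∀ j, j + 1 < J → ∀ b ≤ d, θ (j + 1) b = 0 ∨ ∀ m' ≤ b,
    θ (j + 1) b + (2 * m - 1 - e j * A j - e (j + 1) * A (j + 1)) ≤ m' * A j + θ j (b - m')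
  hθe : ∀ j < J, 1 ≤ θ j (e j)

namespace Scheme

variable {d J m : ℕ} (P : Scheme d J m)

/-- exponent of `s_j` -/
def a (j : ℕ) : ℕ := P.e j * P.A j

def R (j : ℕ) : ℕ := 2 * m - 1 - P.a j - P.a (j + 1)

def u (z : ℕ) : ℕ := z ^ (2 * m - 1 - P.a 0)
def q (z j : ℕ) : ℕ := 2 * z ^ P.A j
def r (z j : ℕ) : ℕ := z ^ P.R j

/-- exponent of `N` -/
def E : ℕ := (2 * m - 1 - P.a 0) + ∑ j ∈ range J, P.R j

theorem ha1 (j : ℕ) : P.a j + 1 ≤ m := P.ha j

theorem len_eq (z J' : ℕ) : len (P.u z) (P.r z) J' =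
    z ^ ((2 * m - 1 - P.a 0) + ∑ j ∈ range J', P.R j) := by
  induction J' with
  | zero => simp [len, u]
  | succ J' ih =>
    have : len (P.u z) (P.r z) (J' + 1) = P.r z J' * len (P.u z) (P.r z) J' := rfl
    rw [this, ih, Finset.sum_range_succ, r, ← pow_add]
    congr 1
    ring

theorem q_ge {z : ℕ} (hz : 1 ≤ z) (j : ℕ) : 2 ≤ P.q z j := by
  unfold q
  have : 1 ≤ z ^ P.A j := Nat.one_le_pow _ _ hz
  omega

theorem Qs_le {z : ℕ} (hz : 1 ≤ z) : ∀ j < J, ∀ B : Finset (Fin d),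
    Qs (P.u z) (P.q z) (P.r z) d j B ≤ 2 ^ (d * j) / (z : ℝ) ^ P.θ j B.card := by
  have hq : ∀ j, 0 < P.q z j := fun j => by have := P.q_ge hz j; omega
  have hz0 : (0 : ℝ) < z := by exact_mod_cast hz
  have hz1 : (1 : ℝ) ≤ z := by exact_mod_cast hz
  intro j
  induction j with
  | zero =>
    intro _ B
    rcases B.eq_empty_or_nonempty with h | h
    · subst h
      rw [card_empty, P.hθ0, mul_zero, pow_zero, pow_zero, div_one]
      exact Qs_le_one _ _ _ hq _ _
    · rw [Qs_zero _ _ _ h]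
      positivity
  | succ j ih =>
    intro hj B
    have hBd : B.card ≤ d := by
      have := card_le_univ B
      rwa [Fintype.card_fin] at this
    rcases P.hθs j hj B.card hBd with h0 | h1
    · rw [h0, pow_zero, div_one]
      refine (Qs_le_one _ _ _ hq _ _).trans ?_
      exact one_le_pow₀ (by norm_num)
    · have hlen : 0 < len (P.u z) (P.r z) j := by
        rw [P.len_eq]
        positivity
      refine (Qs_succ _ _ _ hq hlen B).trans ?_
      have h2 : ∀ A ∈ B.powerset, (1 / (P.q z j : ℝ)) ^ A.card *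
          Qs (P.u z) (P.q z) (P.r z) d j (B \ A) ≤
          2 ^ (d * j) / ((z : ℝ) ^ P.θ (j + 1) B.card * (z : ℝ) ^ P.R j) := by
        intro A hA
        rw [mem_powerset] at hA
        have hAc : A.card ≤ B.card := card_le_card hA
        have h3 := ih (by omega) (B \ A)
        rw [card_sdiff_of_subset hA] at h3
        have h4 : (1 / (P.q z j : ℝ)) ^ A.card ≤ 1 / (z : ℝ) ^ (A.card * P.A j) := by
          rw [mul_comm, pow_mul, ← one_div_pow]
          apply pow_le_pow_left₀ (by positivity)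
          apply one_div_le_one_div_of_le (by positivity)
          unfold q
          push_cast
          have : (0 : ℝ) < (z : ℝ) ^ P.A j := by positivity
          linarith
        calc _ ≤ 1 / (z : ℝ) ^ (A.card * P.A j) *
              (2 ^ (d * j) / (z : ℝ) ^ P.θ j (B.card - A.card)) :=
              mul_le_mul h4 h3 (Qs_nonneg _ _ _ _ _) (by positivity)
          _ = 2 ^ (d * j) / ((z : ℝ) ^ (A.card * P.A j + P.θ j (B.card - A.card))) := by
              rw [pow_add]
              field_simp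
          _ ≤ 2 ^ (d * j) / ((z : ℝ) ^ (P.θ (j + 1) B.card + P.R j)) := by
              apply div_le_div_of_nonneg_left (by positivity) (by positivity)
              exact pow_le_pow_right₀ hz1 (h1 A.card hAc)
          _ = _ := by rw [pow_add]
      calc (P.r z j : ℝ) * ∑ A ∈ B.powerset, (1 / (P.q z j : ℝ)) ^ A.card *
          Qs (P.u z) (P.q z) (P.r z) d j (B \ A)
          ≤ (P.r z j : ℝ) * ∑ _A ∈ B.powerset,
            2 ^ (d * j) / ((z : ℝ) ^ P.θ (j + 1) B.card * (z : ℝ) ^ P.R j) :=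
            mul_le_mul_of_nonneg_left (Finset.sum_le_sum h2) (Nat.cast_nonneg _)
        _ = 2 ^ B.card * (2 ^ (d * j) / (z : ℝ) ^ P.θ (j + 1) B.card) := by
            rw [Finset.sum_const, card_powerset, nsmul_eq_mul]
            unfold r
            push_cast
            field_simp
        _ ≤ 2 ^ d * (2 ^ (d * j) / (z : ℝ) ^ P.θ (j + 1) B.card) := by
            apply mul_le_mul_of_nonneg_right _ (by positivity)
            exact pow_le_pow_right₀ (by norm_num) hBd
        _ = 2 ^ (d * (j + 1)) / (z : ℝ) ^ P.θ (j + 1) B.card := by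
            rw [← mul_div_assoc, ← pow_add]
            congr 2
            ring

theorem Qs_half {z : ℕ} (hz : 2 ^ (d * J + 1) ≤ z) {j : ℕ} (hj : j < J) :
    Qs (P.u z) (P.q z) (P.r z) d j (univ.filter (fun i : Fin d => i.val < P.e j)) ≤ 1 / 2 := by
  have hz1 : 1 ≤ z := le_trans (Nat.one_le_two_pow) hz
  have h := P.Qs_le hz1 j hj (univ.filter (fun i : Fin d => i.val < P.e j))
  have hc : (univ.filter (fun i : Fin d => i.val < P.e j)).card = P.e j := by
    rw [Fin.card_filter_val_lt]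
    have := P.he j
    omega
  rw [hc] at h
  refine h.trans ?_
  have hzr : (2 : ℝ) ^ (d * J + 1) ≤ z := by exact_mod_cast hz
  have hz0 : (0 : ℝ) < z := by exact_mod_cast hz1
  have hz1' : (1 : ℝ) ≤ z := by exact_mod_cast hz1
  have h1 : (z : ℝ) ≤ (z : ℝ) ^ P.θ j (P.e j) := by
    calc (z : ℝ) = (z : ℝ) ^ 1 := (pow_one _).symm
      _ ≤ _ := pow_le_pow_right₀ hz1' (P.hθe j hj)
  rw [div_le_iff₀ (by positivity)]
  have h2 : (2 : ℝ) ^ (d * j) ≤ 2 ^ (d * J) :=
    pow_le_pow_right₀ (by norm_num) (Nat.mul_le_mul_left _ hj.le)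
  have h3 : (2 : ℝ) ^ (d * J + 1) = 2 ^ (d * J) * 2 := pow_succ _ _
  linarith

end Scheme

end Pool.Agent.H46.SR
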