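import Pool.Agent.H46.SR.Process

/-! Stuck groups and the exponential moment of a block. -/

namespace Pool.Agent.H46.SR

open Finset

section
variable {k d : ℕ} [NeZero k]
variable (u : ℕ) (q r : ℕ → ℕ)

/-- a group with parent pattern `w` is good at some time of the block -/
def alive (j : ℕ) (w : Fin d → Bool) (c : Fin d → Fin (q j) × S q r j) : Prop :=
  ∃ t < len u r j, ∀ i, xor (w i) (xor (decide ((c i).1.val = 0)) (X u q r j (c i).2 t)) = true

open scoped Classical in
/-- indicator -/
noncomputable def ind (p : Prop) : ℝ := if p then 1 else 0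

theorem ind_nonneg (p : Prop) : 0 ≤ ind p := by unfold ind; split_ifs <;> norm_num
theorem ind_le_one (p : Prop) : ind p ≤ 1 := by unfold ind; split_ifs <;> norm_num
theorem ind_pos {p : Prop} (h : p) : ind p = 1 := by unfold ind; rw [if_pos h]
theorem ind_neg {p : Prop} (h : ¬ p) : ind p = 0 := by unfold ind; rw [if_neg h]

theorem grp_inj {x m : ℕ} (hm : m ≤ k) : Set.InjOn (fun i => grp k (x + i)) (range m : Finset ℕ) := by
  intro i hi i' hi' h
  simp only [coe_range, Set.mem_Iio] at hi hi'
  have h1 : (x + i) % k = (x + i') % k := by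
    have := congrArg Fin.val h
    simpa [grp] using this
  have h2 : i ≡ i' [MOD k] := Nat.ModEq.add_left_cancel' x h1
  exact Nat.ModEq.eq_of_lt_of_lt h2 (by omega) (by omega)

/-- tail bound for the number of rows embedded in a block with fresh flips -/
theorem tail {j : ℕ} {s : ℝ}
    (hal : ∀ w : Fin d → Bool, av (fun c : Fin d → Fin (q j) × S q r j => ind (alive u q r j w c))
      ≤ 1 - s) (hq : ∀ j, 0 < q j)
    (W : Fin k → Fin d → Bool) (x m : ℕ) (hm : m ≤ k) :
    av (fun b : Fin k → Fin d → Fin (q j) × S q r j =>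
      ind (x + m ≤ pos (GG (Vb u q r j W b)) (len u r j) x)) ≤ (1 - s) ^ m := by
  classical
  have : Nonempty (Fin (q j)) := ⟨⟨0, hq j⟩⟩
  have : Nonempty (S q r j) := nonempty_S q r hq j
  set R : Finset (Fin k) := (range m).image (fun i => grp k (x + i)) with hR
  have hRc : R.card = m := by
    rw [hR, card_image_of_injOn (grp_inj hm), card_range]
  obtain ⟨f, hf⟩ : ∃ f : Fin k → (Fin d → Fin (q j) × S q r j) → ℝ,
      ∀ g c, f g c = if g ∈ R then ind (alive u q r j (W g) c) else 1 := ⟨_, fun _ _ => rfl⟩
  have hf0 : ∀ g c, 0 ≤ f g c := by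
    intro g c
    rw [hf]
    split_ifs
    · exact ind_nonneg _
    · norm_num
  calc _ ≤ av (fun b : Fin k → Fin d → Fin (q j) × S q r j => ∏ g, f g (b g)) := by
        apply av_mono
        intro b
        by_cases h : x + m ≤ pos (GG (Vb u q r j W b)) (len u r j) x
        · rw [ind_pos h]
          apply le_of_eq
          symm
          apply Finset.prod_eq_one
          intro g _
          rw [hf]
          split_ifs with hg
          · apply ind_pos
            rw [hR, mem_image] at hg
            obtain ⟨i, hi, rfl⟩ := hg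
            rw [mem_range] at hi
            obtain ⟨t, ht, hG⟩ := exists_of_lt_pos (x := x) (y := x + i) (by omega)
              (show x + i < pos (GG (Vb u q r j W b)) (len u r j) x by omega)
            exact ⟨t, ht, hG⟩
          · rfl
        · rw [ind_neg h]
          exact Finset.prod_nonneg (fun g _ => hf0 g _)
    _ = ∏ g, av (f g) := av_pi_prod f
    _ ≤ ∏ g : Fin k, (if g ∈ R then (1 - s) else 1) := by
        apply Finset.prod_le_prod
        · intro g _
          exact av_nonneg (hf0 g)
        · intro g _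
          by_cases hg : g ∈ R
          · have : f g = fun c => ind (alive u q r j (W g) c) := by
              funext c
              rw [hf, if_pos hg]
            rw [if_pos hg, this]
            exact hal (W g)
          · have : f g = fun _ => 1 := by
              funext c
              rw [hf, if_neg hg]
            rw [if_neg hg, this]
            exact (av_const 1).le
    _ = (1 - s) ^ m := by
        rw [Finset.prod_ite, Finset.prod_const, Finset.prod_const_one, mul_one]
        congr 1
        rw [← hRc]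
        congr 1
        ext g
        simp

/-- pointwise bound -/
theorem exp_pointwise {lam : ℝ} (hl : 0 ≤ lam) (c k : ℕ) :
    Real.exp (lam * c) ≤ 1 + ∑ m ∈ range k, (Real.exp (lam * (m + 1 : ℕ)) - Real.exp (lam * m)) *
      ind (m + 1 ≤ c) + Real.exp (lam * c) * ind (k ≤ c) := by
  have hmono : ∀ m : ℕ, Real.exp (lam * m) ≤ Real.exp (lam * (m + 1 : ℕ)) := by
    intro m
    apply Real.exp_le_exp.mpr
    apply mul_le_mul_of_nonneg_left _ hl
    push_cast
    linarith
  have htel : ∀ c : ℕ, ∑ m ∈ range c, (Real.exp (lam * (m + 1 : ℕ)) - Real.exp (lam * m)) =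
      Real.exp (lam * c) - 1 := by
    intro c
    rw [Finset.sum_range_sub (fun m : ℕ => Real.exp (lam * m))]
    simp
  by_cases h : k ≤ c
  · rw [ind_pos h]
    have : 0 ≤ ∑ m ∈ range k, (Real.exp (lam * (m + 1 : ℕ)) - Real.exp (lam * m)) *
      ind (m + 1 ≤ c) := by
      apply Finset.sum_nonneg
      intro m _
      exact mul_nonneg (by linarith [hmono m]) (ind_nonneg _)
    linarith
  · rw [ind_neg h]
    have h1 : ∑ m ∈ range c, (Real.exp (lam * (m + 1 : ℕ)) - Real.exp (lam * m)) ≤
        ∑ m ∈ range k, (Real.exp (lam * (m + 1 : ℕ)) - Real.exp (lam * m)) *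
      ind (m + 1 ≤ c) := by
      calc _ = ∑ m ∈ range c, (Real.exp (lam * (m + 1 : ℕ)) - Real.exp (lam * m)) *
            ind (m + 1 ≤ c) := by
            apply Finset.sum_congr rfl
            intro m hm
            rw [mem_range] at hm
            rw [ind_pos (by omega), mul_one]
        _ ≤ _ := by
            apply Finset.sum_le_sum_of_subset_of_nonneg
            · intro m hm
              rw [mem_range] at hm ⊢
              omega
            · intro m _ _
              exact mul_nonneg (by linarith [hmono m]) (ind_nonneg _)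
    rw [htel] at h1
    linarith

theorem geom_bound {lam s : ℝ} (hl : 0 ≤ lam) (hs0 : 0 < s) (hs : s ≤ 1 / 2) (hls : lam ≤ s / 4)
    (k : ℕ) : ∑ m ∈ range k, (Real.exp (lam * (m + 1 : ℕ)) - Real.exp (lam * m)) *
      (1 - s) ^ (m + 1) ≤ 2 * lam / s := by
  set E := Real.exp lam - 1 with hE
  have hE0 : 0 ≤ E := by
    have := Real.add_one_le_exp lam
    linarith
  have hE1 : E ≤ 9 / 8 * lam := by
    have h1 := Real.abs_exp_sub_one_sub_id_le (x := lam) (by
      rw [abs_of_nonneg hl]; linarith)
    have h2 := (abs_le.mp h1).2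
    have h3 : lam ^ 2 ≤ lam * (1 / 8) := by
      rw [sq]
      exact mul_le_mul_of_nonneg_left (by linarith) hl
    linarith
  set ρ := Real.exp lam * (1 - s) with hρ
  have hρ1 : s - E ≤ 1 - ρ := by
    have : ρ = (1 + E) * (1 - s) := by rw [hρ, hE]; ring
    rw [this]
    nlinarith
  have hρ0 : 0 ≤ ρ := mul_nonneg (Real.exp_pos _).le (by linarith)
  have hsE : 0 < s - E := by nlinarith
  have h1 : ∀ m ∈ range k, (Real.exp (lam * (m + 1 : ℕ)) - Real.exp (lam * m)) *
      (1 - s) ^ (m + 1) ≤ E * ρ ^ m := by
    intro m _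
    have h2 : Real.exp (lam * (m + 1 : ℕ)) = Real.exp lam ^ (m + 1) := by
      rw [← Real.exp_nat_mul]
      congr 1
      ring
    have h3 : Real.exp (lam * m) = Real.exp lam ^ m := by
      rw [← Real.exp_nat_mul]
      congr 1
      ring
    rw [h2, h3]
    have h4 : (Real.exp lam ^ (m + 1) - Real.exp lam ^ m) * (1 - s) ^ (m + 1) =
        E * ρ ^ m * (1 - s) := by
      rw [hE, hρ, mul_pow]
      ring
    rw [h4]
    have h5 : 0 ≤ E * ρ ^ m := mul_nonneg hE0 (pow_nonneg hρ0 _)
    nlinarith
  refine le_trans (Finset.sum_le_sum h1) ?_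
  rw [← Finset.mul_sum]
  have h2 : (∑ m ∈ range k, ρ ^ m) * (1 - ρ) ≤ 1 := by
    have := geom_sum_mul_neg ρ k
    rw [this]
    have := pow_nonneg hρ0 k
    linarith
  have h3 : (∑ m ∈ range k, ρ ^ m) * (s - E) ≤ 1 := by
    refine le_trans (mul_le_mul_of_nonneg_left hρ1 ?_) h2
    exact Finset.sum_nonneg (fun m _ => pow_nonneg hρ0 m)
  rw [le_div_iff₀ hs0]
  have h4 : E * s ≤ 2 * lam * (s - E) := by nlinarith
  have h5 : 0 ≤ ∑ m ∈ range k, ρ ^ m := Finset.sum_nonneg (fun m _ => pow_nonneg hρ0 m)
  calc (E * ∑ m ∈ range k, ρ ^ m) * s = (E * s) * ∑ m ∈ range k, ρ ^ m := by ring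
    _ ≤ (2 * lam * (s - E)) * ∑ m ∈ range k, ρ ^ m := mul_le_mul_of_nonneg_right h4 h5
    _ = 2 * lam * ((∑ m ∈ range k, ρ ^ m) * (s - E)) := by ring
    _ ≤ 2 * lam * 1 := mul_le_mul_of_nonneg_left h3 (by linarith)
    _ = 2 * lam := by ring

/-- exponential moment of a block with fresh flips -/
theorem psi_bound {j : ℕ} {s lam C : ℝ} (hl : 0 ≤ lam) (hs0 : 0 < s) (hs : s ≤ 1 / 2)
    (hls : lam ≤ s / 4)
    (hal : ∀ w : Fin d → Bool, av (fun c : Fin d → Fin (q j) × S q r j => ind (alive u q r j w c))
      ≤ 1 - s) (hq : ∀ j, 0 < q j) (hphi : PhiLe u q r k d j (2 * lam) C) :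
    PsiLe u q r k d j lam (1 + 2 * lam / s + Real.sqrt C * Real.sqrt ((1 - s) ^ k)) := by
  intro W x
  have : Nonempty (Fin (q j)) := ⟨⟨0, hq j⟩⟩
  have : Nonempty (S q r j) := nonempty_S q r hq j
  set c : (Fin k → Fin d → Fin (q j) × S q r j) → ℕ := fun b =>
    pos (GG (Vb u q r j W b)) (len u r j) x - x with hc
  have hcx : ∀ b : Fin k → Fin d → Fin (q j) × S q r j,
      (pos (GG (Vb u q r j W b)) (len u r j) x : ℝ) - x = c b := by
    intro b
    rw [hc]
    simp only
    rw [Nat.cast_sub (pos_ge _ _ _)]
  have htail : ∀ m ≤ k, av (fun b : Fin k → Fin d → Fin (q j) × S q r j => ind (m ≤ c b)) ≤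
      (1 - s) ^ m := by
    intro m hm
    refine le_trans (le_of_eq ?_) (tail u q r hal hq W x m hm)
    apply av_congr
    intro b
    congr 1
    have := pos_ge (GG (Vb u q r j W b)) (len u r j) x
    rw [hc]
    simp only [eq_iff_iff]
    omega
  have hcs : av (fun b : Fin k → Fin d → Fin (q j) × S q r j =>
      Real.exp (lam * c b) * ind (k ≤ c b)) ≤ Real.sqrt C * Real.sqrt ((1 - s) ^ k) := by
    refine le_trans (av_cs _ _) ?_
    apply mul_le_mul
    · apply Real.sqrt_le_sqrt
      refine le_trans (le_of_eq ?_) (psi_of_phi u q r hq hphi W x)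
      apply av_congr
      intro b
      rw [hcx, ← Real.exp_nat_mul]
      congr 1
      push_cast
      ring
    · apply Real.sqrt_le_sqrt
      refine le_trans (le_of_eq ?_) (htail k le_rfl)
      apply av_congr
      intro b
      unfold ind
      split_ifs <;> norm_num
    · exact Real.sqrt_nonneg _
    · exact Real.sqrt_nonneg _
  simp only [hcx]
  calc _ ≤ av (fun b : Fin k → Fin d → Fin (q j) × S q r j =>
        (1 + ∑ m ∈ range k, (Real.exp (lam * (m + 1 : ℕ)) - Real.exp (lam * m)) *
      ind (m + 1 ≤ c b)) + Real.exp (lam * c b) * ind (k ≤ c b)) := by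
        apply av_mono
        intro b
        exact exp_pointwise hl (c b) k
    _ = 1 + ∑ m ∈ range k, (Real.exp (lam * (m + 1 : ℕ)) - Real.exp (lam * m)) *
        av (fun b : Fin k → Fin d → Fin (q j) × S q r j => ind (m + 1 ≤ c b)) +
        av (fun b : Fin k → Fin d → Fin (q j) × S q r j =>
          Real.exp (lam * c b) * ind (k ≤ c b)) := by
        rw [av_add, av_add, av_const, av_sum]
        congr 2
        apply Finset.sum_congr rfl
        intro m _
        exact av_mul_left _ _
    _ ≤ 1 + 2 * lam / s + Real.sqrt C * Real.sqrt ((1 - s) ^ k) := by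
        apply add_le_add _ hcs
        apply add_le_add le_rfl
        refine le_trans (Finset.sum_le_sum ?_) (geom_bound hl hs0 hs hls k)
        intro m hm
        rw [mem_range] at hm
        apply mul_le_mul_of_nonneg_left (htail (m + 1) hm)
        have : Real.exp (lam * m) ≤ Real.exp (lam * (m + 1 : ℕ)) := by
          apply Real.exp_le_exp.mpr
          apply mul_le_mul_of_nonneg_left _ hl
          push_cast
          linarith
        linarith

end

end Pool.Agent.H46.SR
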