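import Pool.Agent.H46.SR.Harmonic
import Pool.Agent.H46.SR.Alt

/-! Superquadratic lower bounds for the Ramsey numbers of matrices with at most `d` 1-entries in
each row. -/

namespace Pool.Agent.H46.SR.SuperquadraticOld

open Pool.Agent.H68 Filter

/-- For every `d ≥ 2` and every `ε > 0`, with `k = ⌊(d - 1) / 4⌋` and `H_k` the `k`-th harmonic
number, `f_d(n) ≥ n ^ (3 + H_k / 2 - (2 k + 1) / d - ε)` for all large `n`. The exponent is `5/2`
for `d = 2`, `8/3` for `d = 3`, `3` for `d = 6`, and tends to infinity like `(log d) / 2`. -/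
theorem result : ∀ d : ℕ, 2 ≤ d → ∀ ε : ℝ, 0 < ε → ∀ᶠ n : ℕ in atTop,
    (n : ℝ) ^ (3 + ((harmonic ((d - 1) / 4) : ℚ) : ℝ) / 2 -
      (2 * (((d - 1) / 4 : ℕ) : ℝ) + 1) / d - ε) ≤ RS.f d n := by
  intro d hd ε hε
  rcases Nat.lt_or_ge d 3 with h | h
  · have hd2 : d = 2 := by omega
    subst hd2
    have h1 := Pool.Agent.H46.SR.Harm.lower 2 le_rfl ε hε
    have h2 : (2 : ℝ) + ((harmonic (2 / 2) : ℚ) : ℝ) / 2 - ε =
        3 + ((harmonic ((2 - 1) / 4) : ℚ) : ℝ) / 2 -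
          (2 * (((2 - 1) / 4 : ℕ) : ℝ) + 1) / ((2 : ℕ) : ℝ) - ε := by
      norm_num [harmonic]
    rw [h2] at h1
    exact h1
  · exact Pool.Agent.H46.SR.Alt.lower d h ε hε

end Pool.Agent.H46.SR.SuperquadraticOld
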