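import Pool.Agent.H46.SR.Repair
import Pool.Agent.H68.RS.Main

/-! The union bound over the choices of columns, and the matrix. -/

namespace Pool.Agent.H46.SR

open Finset Pool.Agent.H68.RS

variable {k d : ℕ} [NeZero k]
variable (u : ℕ) (q r : ℕ → ℕ)

theorem exists_sample (hq : ∀ j, 0 < q j) {J N : ℕ} (hN : len u r J = N) {lam C : ℝ}
    (hPhi : PhiLe u q r k d J lam C)
    (hlt : 2 * (N : ℝ) ^ (k * d) * (C * Real.exp (-(lam * ((k * k : ℕ) : ℝ)))) < 1)
    (hlam : 0 ≤ lam) :
    ∃ ω : Fin N → S q r J, ∀ (b : Bool) (col : Fin k × Fin d → Fin N), Function.Injective col →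
      pos (GG (Vn u q r J (fun _ _ => !b) (fun g i => ω (col (g, i))))) N 0 < k * k := by
  classical
  by_contra hcon
  push Not at hcon
  have : Nonempty (S q r J) := nonempty_S q r hq J
  -- the bad event for given columns
  obtain ⟨ev, hev⟩ : ∃ ev : Bool → (Fin k × Fin d → S q r J) → ℝ, ∀ b σ, ev b σ =
      ind (k * k ≤ pos (GG (Vn u q r J (fun _ _ => !b) (fun g i => σ (g, i)))) N 0) :=
    ⟨_, fun _ _ => rfl⟩
  have hev0 : ∀ b σ, 0 ≤ ev b σ := fun b σ => by rw [hev]; exact ind_nonneg _
  have hbound : ∀ b, av (ev b) ≤ C * Real.exp (-(lam * ((k * k : ℕ) : ℝ))) := by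
    intro b
    have h1 := hPhi (fun _ _ => !b) 0
    rw [← av_equiv (Equiv.curry (Fin k) (Fin d) (S q r J))] at h1
    calc av (ev b) ≤ av (fun σ : Fin k × Fin d → S q r J =>
          Real.exp (lam * ((pos (GG (Vn u q r J (fun _ _ => !b)
            (Equiv.curry (Fin k) (Fin d) (S q r J) σ))) (len u r J) 0 : ℝ) - (0 : ℕ))) *
            Real.exp (-(lam * ((k * k : ℕ) : ℝ)))) := by
          apply av_mono
          intro σ
          rw [hev, ← Real.exp_add, hN]
          by_cases h : k * k ≤ pos (GG (Vn u q r J (fun _ _ => !b) (fun g i => σ (g, i)))) N 0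
          · rw [ind_pos h]
            apply Real.one_le_exp
            have h2 : ((k * k : ℕ) : ℝ) ≤ (pos (GG (Vn u q r J (fun _ _ => !b)
                (fun g i => σ (g, i)))) N 0 : ℝ) := by exact_mod_cast h
            have h3 : (Equiv.curry (Fin k) (Fin d) (S q r J) σ) = fun g i => σ (g, i) := rfl
            rw [h3]
            push_cast at h2 ⊢
            nlinarith
          · rw [ind_neg h]
            exact (Real.exp_pos _).le
      _ = av (fun σ : Fin k × Fin d → S q r J =>
          Real.exp (lam * ((pos (GG (Vn u q r J (fun _ _ => !b)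
            (Equiv.curry (Fin k) (Fin d) (S q r J) σ))) (len u r J) 0 : ℝ) - (0 : ℕ)))) *
            Real.exp (-(lam * ((k * k : ℕ) : ℝ))) := av_mul_right _ _
      _ ≤ C * Real.exp (-(lam * ((k * k : ℕ) : ℝ))) :=
          mul_le_mul_of_nonneg_right h1 (Real.exp_pos _).le
  have hC0 : 0 ≤ C * Real.exp (-(lam * ((k * k : ℕ) : ℝ))) :=
    le_trans (av_nonneg (hev0 true)) (hbound true)
  have h1 : ∀ ω : Fin N → S q r J, (1 : ℝ) ≤ ∑ p : Bool × (Fin k × Fin d → Fin N),
      (if Function.Injective p.2 then ev p.1 (fun c => ω (p.2 c)) else 0) := by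
    intro ω
    obtain ⟨b, col, hinj, hge⟩ := hcon ω
    refine le_trans ?_ (Finset.single_le_sum (f := fun p : Bool × (Fin k × Fin d → Fin N) =>
      (if Function.Injective p.2 then ev p.1 (fun c => ω (p.2 c)) else 0)) ?_
      (mem_univ (b, col)))
    · rw [if_pos hinj, hev, ind_pos hge]
    · intro p _
      split_ifs
      · exact hev0 _ _
      · exact le_rfl
  have h2 : (1 : ℝ) ≤ ∑ p : Bool × (Fin k × Fin d → Fin N),
      av (fun ω : Fin N → S q r J =>
        (if Function.Injective p.2 then ev p.1 (fun c => ω (p.2 c)) else 0)) := by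
    rw [← av_sum]
    calc (1 : ℝ) = av (fun _ : Fin N → S q r J => (1 : ℝ)) := (av_const 1).symm
      _ ≤ _ := av_mono h1
  have h3 : ∀ p : Bool × (Fin k × Fin d → Fin N),
      av (fun ω : Fin N → S q r J =>
        (if Function.Injective p.2 then ev p.1 (fun c => ω (p.2 c)) else 0)) ≤
      C * Real.exp (-(lam * ((k * k : ℕ) : ℝ))) := by
    intro p
    by_cases hp : Function.Injective p.2
    · simp only [hp, if_true]
      rw [av_comp_inj p.2 hp (ev p.1)]
      exact hbound p.1
    · simp only [hp, if_false]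
      rw [av_const]
      exact hC0
  have h4 := h2.trans (Finset.sum_le_sum (fun p _ => h3 p))
  rw [Finset.sum_const, Finset.card_univ, Fintype.card_prod, Fintype.card_bool,
    Fintype.card_fun, Fintype.card_prod, Fintype.card_fin, Fintype.card_fin, Fintype.card_fin,
    nsmul_eq_mul] at h4
  push_cast at h4 hlt
  linarith

/-- the matrix: row `a < k²` has its 1-entries in the `d` columns of group `a mod k` -/
def MM (k d n : ℕ) (a c : Fin n) : Prop := a.val < k * k ∧ ∃ i < d, c.val = d * (a.val % k) + i

theorem MM_rows (k d n : ℕ) (a : Fin n) : {c | MM k d n a c}.ncard ≤ d := by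
  calc {c | MM k d n a c}.ncard ≤ (↑(range d) : Set ℕ).ncard := by
        apply Set.ncard_le_ncard_of_injOn (fun c : Fin n => c.val - d * (a.val % k))
        · rintro c ⟨_, i, hi, hci⟩
          simp only [coe_range, Set.mem_Iio]
          omega
        · rintro c ⟨_, i, hi, hci⟩ c' ⟨_, i', hi', hci'⟩ h
          simp only at h
          apply Fin.ext
          omega
    _ = d := by rw [Set.ncard_coe_finset, card_range]

theorem no_copy {n J N : ℕ} (hkk : k * k ≤ n) (hdk : d * k ≤ n)
    (ω : Fin N → S q r J)
    (h : ∀ (b : Bool) (col : Fin k × Fin d → Fin N), Function.Injective col →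
      pos (GG (Vn u q r J (fun _ _ => !b) (fun g i => ω (col (g, i))))) N 0 < k * k) :
    ¬ HasMonoCopy (MM k d n) (fun (t c : Fin N) => X u q r J (ω c) t) := by
  rintro ⟨b, f, g, hf, hg, hcol⟩
  have hlt : ∀ (a : Fin k) (i : Fin d), d * a.val + i.val < n := by
    intro a i
    have h1 : a.val + 1 ≤ k := a.2
    have h2 : d * (a.val + 1) ≤ d * k := Nat.mul_le_mul_left d h1
    have h3 := i.2
    rw [Nat.mul_add, mul_one] at h2
    omega
  set col : Fin k × Fin d → Fin N := fun p => g ⟨d * p.1.val + p.2.val, hlt p.1 p.2⟩ with hcold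
  have hinj : Function.Injective col := by
    rintro ⟨a, i⟩ ⟨a', i'⟩ heq
    have h1 := hg.injective heq
    simp only [Fin.mk.injEq] at h1
    have hd : 0 < d := lt_of_le_of_lt (Nat.zero_le _) i.2
    have h2 : a.val = a'.val := by
      have e1 : (d * a.val + i.val) / d = a.val := by
        rw [Nat.mul_add_div hd, Nat.div_eq_of_lt i.2, add_zero]
      have e2 : (d * a'.val + i'.val) / d = a'.val := by
        rw [Nat.mul_add_div hd, Nat.div_eq_of_lt i'.2, add_zero]
      rw [← e1, ← e2, h1]
    have h3 : i.val = i'.val := by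
      rw [h2] at h1
      omega
    exact Prod.ext (Fin.ext h2) (Fin.ext h3)
  have h1 := h b col hinj
  have h2 : 0 + k * k ≤ pos (GG (Vn u q r J (fun _ _ => !b) (fun g i => ω (col (g, i))))) N 0 := by
    apply pos_ge_of_embed (fun i => if hi : i < n then (f ⟨i, hi⟩).val else 0)
    · intro i j hij hj
      have hin : i < n := by omega
      have hjn : j < n := by omega
      simp only [hin, hjn, dif_pos]
      exact hf (by
        show i < j
        exact hij)
    · intro i hi
      have hin : i < n := by omega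
      simp only [hin, dif_pos]
      exact (f ⟨i, hin⟩).2
    · intro i hi m
      have hin : i < n := by omega
      have hgrp : (grp k (0 + i)).val = i % k := by
        simp [grp]
      simp only [hin, dif_pos]
      have h3 := hcol ⟨i, hin⟩ ⟨d * (grp k (0 + i)).val + m.val, hlt _ m⟩
        ⟨hi, m.val, m.2, by simp only [hgrp]⟩
      simp only at h3
      unfold Vn
      rw [hcold]
      simp only
      rw [h3]
      cases b <;> rfl
  omega

end Pool.Agent.H46.SR
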